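import Mathlib

/-!
# Base 2 pseudoprimes and the order of 2: statements
-/

open Filter Topology Finset

namespace PspOrd

/-- The number of base 2 pseudoprimes up to `x`. -/
noncomputable def Psi (x : ℝ) : ℕ := {n : ℕ | (n : ℝ) ≤ x ∧ Nat.FermatPsp n 2}.ncard

/-- Erdős' conjecture (Q1). -/
def Q1 : Prop := Tendsto (fun x : ℝ => Real.log (Psi x) / Real.log x) atTop (𝓝 1)

/-- The number of base 2 pseudoprimes `n ≤ x` for which the order of `2` modulo `n` is `> z`. -/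
noncomputable def Big (x z : ℝ) : ℕ :=
  {n : ℕ | (n : ℝ) ≤ x ∧ Nat.FermatPsp n 2 ∧ z < (orderOf (2 : ZMod n) : ℝ)}.ncard

/-- The number of `n ≤ x` with `n ∣ 2 ^ L - 1` and `n ≡ 1 (mod L)`. -/
noncomputable def Dv (x : ℝ) (L : ℕ) : ℕ :=
  {n : ℕ | (n : ℝ) ≤ x ∧ n ∣ 2 ^ L - 1 ∧ n ≡ 1 [MOD L]}.ncard

/-- The number of primes `p ≤ y` with `p ∣ 2 ^ L - 1`. -/
noncomputable def Pr (y : ℝ) (L : ℕ) : ℕ :=
  {p : ℕ | (p : ℝ) ≤ y ∧ p.Prime ∧ p ∣ 2 ^ L - 1}.ncard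

end PspOrd
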