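import Pool.Agent.Lib.PspOrd.Defs

open Filter Topology Finset

namespace PspOrd

/-- At most `L` prime powers divide `2 ^ L - 1`. -/
theorem card_primePow_le {L : ℕ} (T : Finset ℕ) (h : ∀ q ∈ T, IsPrimePow q ∧ q ∣ 2 ^ L - 1) (hL : 1 ≤ L) :
    T.card ≤ L := by
  have hM : 2 ^ L - 1 ≠ 0 := by
    have : 2 ≤ 2 ^ L := by
      calc 2 = 2 ^ 1 := by norm_num
        _ ≤ 2 ^ L := Nat.pow_le_pow_right (by norm_num) hL
    omega
  have hlog2 : 0 < Real.log 2 := Real.log_pos (by norm_num)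
  have h1 : ∑ q ∈ T, ArithmeticFunction.vonMangoldt q ≤ Real.log ((2 ^ L - 1 : ℕ) : ℝ) := by
    rw [← ArithmeticFunction.vonMangoldt_sum]
    apply Finset.sum_le_sum_of_subset_of_nonneg
    · intro q hq
      rw [Nat.mem_divisors]
      exact ⟨(h q hq).2, hM⟩
    · intro i _ _
      exact ArithmeticFunction.vonMangoldt_nonneg
  have h2 : (T.card : ℝ) * Real.log 2 ≤ ∑ q ∈ T, ArithmeticFunction.vonMangoldt q := by
    rw [← nsmul_eq_mul, ← Finset.sum_const]
    apply Finset.sum_le_sum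
    intro q hq
    have hq1 := (h q hq).1
    rw [ArithmeticFunction.vonMangoldt_apply, if_pos hq1]
    apply Real.log_le_log (by norm_num)
    have : 2 ≤ q.minFac := (Nat.minFac_prime hq1.one_lt.ne').two_le
    exact_mod_cast this
  have h3 : Real.log ((2 ^ L - 1 : ℕ) : ℝ) ≤ L * Real.log 2 := by
    rw [← Real.log_pow]
    apply Real.log_le_log
    · exact_mod_cast Nat.pos_of_ne_zero hM
    · have : (2 ^ L - 1 : ℕ) ≤ 2 ^ L := Nat.sub_le _ _
      exact_mod_cast this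
  have h4 : (T.card : ℝ) * Real.log 2 ≤ L * Real.log 2 := h2.trans (h1.trans h3)
  have h5 : (T.card : ℝ) ≤ L := le_of_mul_le_mul_right h4 hlog2
  exact_mod_cast h5

/-- At most `L` primes divide `2 ^ L - 1`. -/
theorem card_primes_le {L : ℕ} (T : Finset ℕ) (h : ∀ p ∈ T, p.Prime ∧ p ∣ 2 ^ L - 1) (hL : 1 ≤ L) :
    T.card ≤ L :=
  card_primePow_le T (fun p hp => ⟨(h p hp).1.isPrimePow, (h p hp).2⟩) hL

/-- At most `1 + X / (d L)` numbers `n ≤ X` are `0` modulo `d` and `1` modulo `L`. -/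
theorem card_class_le {d L : ℕ} (hd : 1 ≤ d) (hL : 1 ≤ L) (hc : Nat.Coprime d L) (x : ℝ) (hx : 0 ≤ x)
    (T : Finset ℕ) (h : ∀ n ∈ T, (n : ℝ) ≤ x ∧ d ∣ n ∧ n ≡ 1 [MOD L]) :
    (T.card : ℝ) ≤ 1 + x / (d * L) := by
  have hdL : 0 < d * L := Nat.mul_pos hd hL
  have h1 : T.card ≤ (Finset.range (⌊x / (d * L)⌋₊ + 1)).card := by
    apply Finset.card_le_card_of_injOn (fun n => n / (d * L))
    · intro n hn
      have hn' := h n hn
      simp only [Finset.coe_range, Set.mem_Iio]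
      rw [Nat.lt_succ_iff]
      apply Nat.le_floor
      calc ((n / (d * L) : ℕ) : ℝ) ≤ (n : ℝ) / ((d * L : ℕ) : ℝ) := Nat.cast_div_le
        _ ≤ x / (d * L) := by
          push_cast
          apply div_le_div_of_nonneg_right hn'.1
          positivity
    · intro n hn m hm hnm
      have hn' := h n hn
      have hm' := h m hm
      simp only at hnm
      have e1 : n ≡ m [MOD d] := by
        have a := (Nat.modEq_zero_iff_dvd.2 hn'.2.1)
        have b := (Nat.modEq_zero_iff_dvd.2 hm'.2.1)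
        exact a.trans b.symm
      have e2 : n ≡ m [MOD L] := hn'.2.2.trans hm'.2.2.symm
      have e3 : n ≡ m [MOD d * L] := (Nat.modEq_and_modEq_iff_modEq_mul hc).1 ⟨e1, e2⟩
      have e4 : n % (d * L) = m % (d * L) := e3
      rw [← Nat.div_add_mod n (d * L), ← Nat.div_add_mod m (d * L), hnm, e4]
  rw [Finset.card_range] at h1
  have h2 : ((⌊x / (d * L)⌋₊ : ℕ) : ℝ) ≤ x / (d * L) := Nat.floor_le (by positivity)
  have h3 : (T.card : ℝ) ≤ (⌊x / (d * L)⌋₊ : ℝ) + 1 := by exact_mod_cast h1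
  linarith

end PspOrd
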