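import Pool.Agent.Lib.PspOrd.S1a

open Filter Topology Finset

namespace PspOrd

/-- If `n` is a pseudoprime and `n = d e`, the order modulo `n` divides the product of the orders modulo `d` and `e`. -/
theorem o_mul_dvd {n d e : ℕ} (hn : Nat.FermatPsp n 2) (hde : n = d * e) : o n ∣ Nat.lcm (o d) (o e) := by
  have hdn : d ∣ n := ⟨e, hde⟩
  have hen : e ∣ n := ⟨d, by rw [hde, mul_comm]⟩
  set M := Nat.lcm (o d) (o e) with hM
  have hL0 : 0 < o n := o_pos hn dvd_rfl
  have hd1 : o d ∣ o n := by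
    apply orderOf_dvd_of_pow_eq_one
    have h1 : n ∣ 2 ^ o n - 1 := dvd_two_pow_o n
    have h2 : ((2 ^ o n - 1 : ℕ) : ZMod d) = 0 := (ZMod.natCast_eq_zero_iff _ _).2 (hdn.trans h1)
    rw [Nat.cast_sub Nat.one_le_two_pow] at h2
    push_cast at h2
    exact sub_eq_zero.1 h2
  have he1 : o e ∣ o n := by
    apply orderOf_dvd_of_pow_eq_one
    have h1 : n ∣ 2 ^ o n - 1 := dvd_two_pow_o n
    have h2 : ((2 ^ o n - 1 : ℕ) : ZMod e) = 0 := (ZMod.natCast_eq_zero_iff _ _).2 (hen.trans h1)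
    rw [Nat.cast_sub Nat.one_le_two_pow] at h2
    push_cast at h2
    exact sub_eq_zero.1 h2
  obtain ⟨k, hk⟩ := Nat.lcm_dvd hd1 he1
  rw [← hM] at hk
  set a := 2 ^ M with ha
  have ha1 : 1 ≤ a := Nat.one_le_two_pow
  have hgeo : (a - 1) * ∑ i ∈ Finset.range k, a ^ i = a ^ k - 1 := by
    have h1 : 1 ≤ a ^ k := Nat.one_le_pow _ _ ha1
    zify [ha1, h1]
    rw [mul_geom_sum]
  have hcop : Nat.Coprime n (∑ i ∈ Finset.range k, a ^ i) := by
    apply Nat.Coprime.symm
    rw [Nat.coprime_comm]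
    apply Nat.coprime_of_dvd
    intro p hp hpn hpS
    have hpa : (a : ZMod p) = 1 := by
      have hpde : p ∣ d * e := by rw [← hde]; exact hpn
      rcases (Nat.Prime.dvd_mul hp).1 hpde with h | h
      · have h1 : (2 : ZMod p) ^ M = 1 := by
          have h2 : d ∣ 2 ^ M - 1 := by
            have h3 : (2 : ZMod d) ^ M = 1 := by
              obtain ⟨c, hc⟩ := Nat.dvd_lcm_left (o d) (o e)
              rw [hM, hc, pow_mul, two_pow_o, one_pow]
            have h4 : ((2 ^ M - 1 : ℕ) : ZMod d) = 0 := by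
              rw [Nat.cast_sub Nat.one_le_two_pow]
              push_cast
              rw [h3, sub_self]
            exact (ZMod.natCast_eq_zero_iff _ _).1 h4
          have h5 : ((2 ^ M - 1 : ℕ) : ZMod p) = 0 := (ZMod.natCast_eq_zero_iff _ _).2 (h.trans h2)
          rw [Nat.cast_sub Nat.one_le_two_pow] at h5
          push_cast at h5
          exact sub_eq_zero.1 h5
        rw [ha]; push_cast; exact h1
      · have h1 : (2 : ZMod p) ^ M = 1 := by
          have h2 : e ∣ 2 ^ M - 1 := by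
            have h3 : (2 : ZMod e) ^ M = 1 := by
              obtain ⟨c, hc⟩ := Nat.dvd_lcm_right (o d) (o e)
              rw [hM, hc, pow_mul, two_pow_o, one_pow]
            have h4 : ((2 ^ M - 1 : ℕ) : ZMod e) = 0 := by
              rw [Nat.cast_sub Nat.one_le_two_pow]
              push_cast
              rw [h3, sub_self]
            exact (ZMod.natCast_eq_zero_iff _ _).1 h4
          have h5 : ((2 ^ M - 1 : ℕ) : ZMod p) = 0 := (ZMod.natCast_eq_zero_iff _ _).2 (h.trans h2)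
          rw [Nat.cast_sub Nat.one_le_two_pow] at h5
          push_cast at h5
          exact sub_eq_zero.1 h5
        rw [ha]; push_cast; exact h1
    have hS : ((∑ i ∈ Finset.range k, a ^ i : ℕ) : ZMod p) = (k : ZMod p) := by
      push_cast
      rw [hpa]
      simp
    have hk0 : ((k : ℕ) : ZMod p) = 0 := by
      rw [← hS]
      exact (ZMod.natCast_eq_zero_iff _ _).2 hpS
    have hpk : p ∣ k := (ZMod.natCast_eq_zero_iff _ _).1 hk0
    have hpL : p ∣ o n := hk ▸ hpk.mul_left M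
    have hone : p ∣ 1 := by
      have := Nat.dvd_gcd hpn hpL
      rwa [(coprime_o hn dvd_rfl : Nat.gcd n (o n) = 1)] at this
    exact hp.one_lt.ne' (Nat.dvd_one.1 hone)
  have hdvd : n ∣ (a - 1) * ∑ i ∈ Finset.range k, a ^ i := by
    rw [hgeo, ha, ← pow_mul, ← hk]
    exact dvd_two_pow_o n
  have h6 : n ∣ a - 1 := hcop.dvd_of_dvd_mul_right hdvd
  apply orderOf_dvd_of_pow_eq_one
  have h7 : ((2 ^ M - 1 : ℕ) : ZMod n) = 0 := (ZMod.natCast_eq_zero_iff _ _).2 h6
  rw [Nat.cast_sub Nat.one_le_two_pow] at h7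
  push_cast at h7
  exact sub_eq_zero.1 h7

/-- The two cases. -/
theorem cases_psp {n : ℕ} (hn : Nat.FermatPsp n 2) :
    (∃ p e, p.Prime ∧ n = p * e ∧ 2 ≤ e ∧ e ^ 4 < n ∧ p ∣ 2 ^ (e - 1) - 1) ∨
    (∃ d e, n = d * e ∧ d ^ 4 ≤ n ^ 3 ∧ e ^ 2 ≤ n) := by
  have hn1 : 1 < n := hn.2.2
  have hex : ∃ d, d ∣ n ∧ n ≤ d ^ 2 := ⟨n, dvd_rfl, by nlinarith⟩
  classical
  set d := Nat.find hex with hd
  have hdspec : d ∣ n ∧ n ≤ d ^ 2 := Nat.find_spec hex
  obtain ⟨e, hde⟩ := hdspec.1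
  have hmin : ∀ c, c ∣ n → n ≤ c ^ 2 → d ≤ c := fun c h1 h2 => Nat.find_min' hex ⟨h1, h2⟩
  have hd1 : 1 < d := by
    by_contra h
    have : d ≤ 1 := not_lt.1 h
    have h3 : d ^ 2 ≤ 1 := by nlinarith
    omega
  have he0 : 0 < e := by
    rcases Nat.eq_zero_or_pos e with h | h
    · rw [h, mul_zero] at hde; omega
    · exact h
  rcases le_or_gt (d ^ 4) (n ^ 3) with h | h
  · right
    refine ⟨d, e, hde, h, ?_⟩
    have h1 : e ^ 2 * n ≤ n * n := by
      calc e ^ 2 * n ≤ e ^ 2 * d ^ 2 := Nat.mul_le_mul_left _ hdspec.2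
        _ = (d * e) * (d * e) := by ring
        _ = n * n := by rw [← hde]
    exact Nat.le_of_mul_le_mul_right h1 (by omega)
  · left
    set p := d.minFac with hp
    have hpp : p.Prime := Nat.minFac_prime hd1.ne'
    obtain ⟨c, hc⟩ := Nat.minFac_dvd d
    rw [← hp] at hc
    have hc0 : 0 < c := by
      rcases Nat.eq_zero_or_pos c with h0 | h0
      · rw [h0, mul_zero] at hc; omega
      · exact h0
    have hcd : c < d := by
      rw [hc]
      have := hpp.one_lt
      nlinarith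
    have hcn : c ^ 2 < n := by
      by_contra h0
      have := hmin c ((Dvd.intro_left p hc.symm).trans hdspec.1) (not_lt.1 h0)
      omega
    have hpe : n ≤ (p * e) ^ 2 := by
      have h1 : n * c ^ 2 ≤ (p * e) ^ 2 * c ^ 2 := by
        calc n * c ^ 2 ≤ n * n := Nat.mul_le_mul_left _ hcn.le
          _ = (d * e) * (d * e) := by rw [← hde]
          _ = (p * c * e) * (p * c * e) := by rw [← hc]
          _ = (p * e) ^ 2 * c ^ 2 := by ring
      exact Nat.le_of_mul_le_mul_right h1 (by positivity)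
    have hpen : p * e ∣ n := ⟨c, by rw [hde, hc]; ring⟩
    have h2 : d ≤ p * e := hmin _ hpen hpe
    have h3 : d ^ 2 ≤ n * p := by
      calc d ^ 2 = d * d := by ring
        _ ≤ d * (p * e) := Nat.mul_le_mul_left _ h2
        _ = (d * e) * p := by ring
        _ = n * p := by rw [← hde]
    have h4 : n < p ^ 2 := by
      have h5 : n ^ 2 * n < n ^ 2 * p ^ 2 := by
        calc n ^ 2 * n = n ^ 3 := by ring
          _ < d ^ 4 := h
          _ = d ^ 2 * d ^ 2 := by ring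
          _ ≤ (n * p) * (n * p) := Nat.mul_le_mul h3 h3
          _ = n ^ 2 * p ^ 2 := by ring
      exact Nat.lt_of_mul_lt_mul_left h5
    have hpd : p ∣ d := ⟨c, hc⟩
    have h5 : d ≤ p := hmin p (hpd.trans hdspec.1) h4.le
    have h6 : d = p := le_antisymm h5 (Nat.le_of_dvd (by omega) hpd)
    have hnp : n = p * e := by rw [← h6]; exact hde
    have he2 : 2 ≤ e := by
      by_contra h0
      have : e = 1 := by omega
      rw [this, mul_one] at hnp
      exact hn.2.1 (hnp ▸ hpp)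
    refine ⟨p, e, hpp, hnp, he2, ?_, ?_⟩
    · have h7 : e ^ 4 * n ^ 3 < n * n ^ 3 := by
        calc e ^ 4 * n ^ 3 < e ^ 4 * d ^ 4 := by
              apply Nat.mul_lt_mul_of_pos_left h
              positivity
          _ = (d * e) ^ 4 := by ring
          _ = n ^ 4 := by rw [← hde]
          _ = n * n ^ 3 := by ring
      exact Nat.lt_of_mul_lt_mul_right h7
    · have h8 : o p ∣ n - 1 := o_dvd hn (hnp ▸ Dvd.intro e rfl)
      have h9 : o p ∣ p - 1 := by
        apply orderOf_dvd_of_pow_eq_one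
        have : Fact p.Prime := ⟨hpp⟩
        apply ZMod.pow_card_sub_one_eq_one
        intro h0
        have h10 : (2 : ZMod p) ^ (n - 1) = 1 := psp_pow hn (hnp ▸ Dvd.intro e rfl)
        rw [h0, zero_pow (by omega)] at h10
        exact zero_ne_one h10
      have h11 : n - 1 = (p - 1) * e + (e - 1) := by
        have hp1 := hpp.one_lt
        obtain ⟨p', hp'⟩ : ∃ p', p = p' + 1 := ⟨p - 1, by omega⟩
        rw [hnp, hp', Nat.add_sub_cancel, Nat.add_mul, one_mul]
        omega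
      have h12 : o p ∣ e - 1 := by
        rw [h11] at h8
        exact (Nat.dvd_add_right (h9.mul_right e)).1 h8
      exact (dvd_two_pow_o p).trans (Nat.pow_sub_one_dvd_pow_sub_one 2 h12)

/-- Few pseudoprimes have a large order. -/
theorem small_order (x y : ℝ) (hx : 1 ≤ x) (hy : 1 ≤ y) :
    (({n : ℕ | (n : ℝ) ≤ x ∧ Nat.FermatPsp n 2 ∧ y ≤ (orderOf (2 : ZMod n) : ℝ)}.ncard : ℕ) : ℝ) ≤
      2 * x ^ (3 / 4 : ℝ) + x * (1 + Real.log x) / √y := by
  classical
  have hx0 : (0 : ℝ) < x := by linarith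
  have hsy : 0 < √y := Real.sqrt_pos.2 (by linarith)
  set N := ⌊x⌋₊ with hN
  set S : Finset ℕ := (Finset.Icc 1 N).filter (fun n => Nat.FermatPsp n 2 ∧ y ≤ (o n : ℝ)) with hS
  have hset : {n : ℕ | (n : ℝ) ≤ x ∧ Nat.FermatPsp n 2 ∧ y ≤ (orderOf (2 : ZMod n) : ℝ)} = (S : Set ℕ) := by
    ext n
    simp only [Set.mem_ofPred_eq, hS, Finset.coe_filter, Finset.mem_Icc]
    constructor
    · rintro ⟨h1, h2, h3⟩
      exact ⟨⟨by have := h2.2.2; omega, Nat.le_floor h1⟩, h2, h3⟩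
    · rintro ⟨⟨h1, h2⟩, h3, h4⟩
      exact ⟨(Nat.le_floor_iff hx0.le).1 h2, h3, h4⟩
  rw [hset, Set.ncard_coe_finset]
  set M := ⌊x ^ (1 / 4 : ℝ)⌋₊ with hM
  set K := ⌊x ^ (3 / 4 : ℝ)⌋₊ with hK
  set A : Finset ℕ := (Finset.Icc 2 M).biUnion (fun m => ((2 ^ (m - 1) - 1).primeFactors).image (fun p => p * m)) with hA
  set F : Finset ℕ := (Finset.Icc 1 K).filter (fun f => √y ≤ (o f : ℝ) ∧ Nat.Coprime f (o f)) with hF
  set B : Finset ℕ := F.biUnion (fun f => (Finset.Icc 1 N).filter (fun n => f ∣ n ∧ n ≡ 1 [MOD o f])) with hB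
  have hsub : S ⊆ A ∪ B := by
    intro n hn
    rw [hS, Finset.mem_filter, Finset.mem_Icc] at hn
    obtain ⟨⟨hn1, hnN⟩, hpsp, hyo⟩ := hn
    have hnx : (n : ℝ) ≤ x := (Nat.le_floor_iff hx0.le).1 hnN
    have hn0 : (0 : ℝ) < n := by exact_mod_cast hn1
    rw [Finset.mem_union]
    rcases cases_psp hpsp with ⟨p, e, hp, hnpe, he2, he4, hpd⟩ | ⟨d, e, hde, hd4, he2⟩
    · left
      rw [hA, Finset.mem_biUnion]
      refine ⟨e, ?_, ?_⟩
      · rw [Finset.mem_Icc]
        refine ⟨he2, Nat.le_floor ?_⟩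
        have h1 : ((e : ℝ)) ^ 4 ≤ x := by
          have : ((e ^ 4 : ℕ) : ℝ) ≤ n := by exact_mod_cast he4.le
          push_cast at this
          linarith
        have h2 : (e : ℝ) = ((e : ℝ) ^ 4) ^ (1 / 4 : ℝ) := by
          rw [← Real.rpow_natCast, ← Real.rpow_mul (by positivity)]
          norm_num
        rw [h2]
        exact Real.rpow_le_rpow (by positivity) h1 (by norm_num)
      · rw [Finset.mem_image]
        refine ⟨p, ?_, hnpe.symm⟩
        rw [Nat.mem_primeFactors]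
        refine ⟨hp, hpd, ?_⟩
        have : 2 ≤ 2 ^ (e - 1) := by
          calc 2 = 2 ^ 1 := by norm_num
            _ ≤ 2 ^ (e - 1) := Nat.pow_le_pow_right (by norm_num) (by omega)
        omega
    · right
      have hdn : d ∣ n := ⟨e, hde⟩
      have hen : e ∣ n := ⟨d, by rw [hde, mul_comm]⟩
      have hd0 : 0 < d := Nat.pos_of_dvd_of_pos hdn hn1
      have he0 : 0 < e := Nat.pos_of_dvd_of_pos hen hn1
      have hdK : d ∈ Finset.Icc 1 K := by
        rw [Finset.mem_Icc]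
        refine ⟨hd0, Nat.le_floor ?_⟩
        have h1 : ((d : ℝ)) ^ 4 ≤ x ^ 3 := by
          have h2 : ((d ^ 4 : ℕ) : ℝ) ≤ ((n ^ 3 : ℕ) : ℝ) := by exact_mod_cast hd4
          push_cast at h2
          exact h2.trans (by gcongr)
        have h2 : (d : ℝ) = ((d : ℝ) ^ 4) ^ (1 / 4 : ℝ) := by
          rw [← Real.rpow_natCast, ← Real.rpow_mul (by positivity)]
          norm_num
        have h3 : x ^ (3 / 4 : ℝ) = (x ^ 3) ^ (1 / 4 : ℝ) := by
          rw [← Real.rpow_natCast, ← Real.rpow_mul hx0.le]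
          norm_num
        rw [h2, h3]
        exact Real.rpow_le_rpow (by positivity) h1 (by norm_num)
      have heK : e ∈ Finset.Icc 1 K := by
        rw [Finset.mem_Icc]
        refine ⟨he0, Nat.le_floor ?_⟩
        have h1 : ((e : ℝ)) ^ 2 ≤ x := by
          have : ((e ^ 2 : ℕ) : ℝ) ≤ n := by exact_mod_cast he2
          push_cast at this
          linarith
        have h2 : (e : ℝ) = ((e : ℝ) ^ 2) ^ (1 / 2 : ℝ) := by
          rw [← Real.rpow_natCast, ← Real.rpow_mul (by positivity)]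
          norm_num
        calc (e : ℝ) = ((e : ℝ) ^ 2) ^ (1 / 2 : ℝ) := h2
          _ ≤ x ^ (1 / 2 : ℝ) := Real.rpow_le_rpow (by positivity) h1 (by norm_num)
          _ ≤ x ^ (3 / 4 : ℝ) := Real.rpow_le_rpow_of_exponent_le hx (by norm_num)
      have hprod : o n ≤ o d * o e := by
        have h1 := o_mul_dvd hpsp hde
        have h2 : Nat.lcm (o d) (o e) ∣ o d * o e := Nat.lcm_dvd_mul _ _
        exact Nat.le_of_dvd (Nat.mul_pos (o_pos hpsp hdn) (o_pos hpsp hen)) (h1.trans h2)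
      have hor : √y ≤ (o d : ℝ) ∨ √y ≤ (o e : ℝ) := by
        by_contra h
        push Not at h
        have h1 : (o d : ℝ) * (o e : ℝ) < √y * √y := by
          apply mul_lt_mul'' h.1 h.2 <;> positivity
        rw [Real.mul_self_sqrt (by linarith)] at h1
        have h2 : ((o n : ℕ) : ℝ) ≤ (o d : ℝ) * (o e : ℝ) := by exact_mod_cast hprod
        linarith
      rw [hB, Finset.mem_biUnion]
      rcases hor with h | h
      · exact ⟨d, Finset.mem_filter.2 ⟨hdK, h, coprime_o hpsp hdn⟩,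
          Finset.mem_filter.2 ⟨Finset.mem_Icc.2 ⟨hn1, hnN⟩, hdn, modEq_o hpsp hdn⟩⟩
      · exact ⟨e, Finset.mem_filter.2 ⟨heK, h, coprime_o hpsp hen⟩,
          Finset.mem_filter.2 ⟨Finset.mem_Icc.2 ⟨hn1, hnN⟩, hen, modEq_o hpsp hen⟩⟩
  have hAcard : (A.card : ℝ) ≤ x ^ (3 / 4 : ℝ) := by
    have h1 : A.card ≤ (Finset.Icc 2 M).card * M := by
      apply Finset.card_biUnion_le_card_mul
      intro m hm
      have hm' := Finset.mem_Icc.1 hm
      refine Finset.card_image_le.trans ?_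
      have h2 := card_primes_le (L := m - 1) ((2 ^ (m - 1) - 1).primeFactors)
        (fun p hp => ⟨Nat.prime_of_mem_primeFactors hp, Nat.dvd_of_mem_primeFactors hp⟩) (by omega)
      omega
    have h2 : (Finset.Icc 2 M).card ≤ M := by
      rw [Nat.card_Icc]; omega
    have h3 : (A.card : ℝ) ≤ (M : ℝ) * M := by
      have : A.card ≤ M * M := h1.trans (Nat.mul_le_mul_right _ h2)
      exact_mod_cast this
    have h4 : (M : ℝ) ≤ x ^ (1 / 4 : ℝ) := Nat.floor_le (by positivity)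
    calc (A.card : ℝ) ≤ (M : ℝ) * M := h3
      _ ≤ x ^ (1 / 4 : ℝ) * x ^ (1 / 4 : ℝ) := mul_le_mul h4 h4 (by positivity) (by positivity)
      _ = x ^ (1 / 2 : ℝ) := by rw [← Real.rpow_add hx0]; norm_num
      _ ≤ x ^ (3 / 4 : ℝ) := Real.rpow_le_rpow_of_exponent_le hx (by norm_num)
  have hBcard : (B.card : ℝ) ≤ x ^ (3 / 4 : ℝ) + x * (1 + Real.log x) / √y := by
    have h1 : (B.card : ℝ) ≤ ∑ f ∈ F, (1 + x / √y * (1 / (f : ℝ))) := by
      have h2 : (B.card : ℝ) ≤ ((∑ f ∈ F, ((Finset.Icc 1 N).filter (fun n => f ∣ n ∧ n ≡ 1 [MOD o f])).card : ℕ) : ℝ) := by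
        exact_mod_cast Finset.card_biUnion_le
      refine h2.trans ?_
      push_cast
      apply Finset.sum_le_sum
      intro f hf
      rw [hF, Finset.mem_filter, Finset.mem_Icc] at hf
      obtain ⟨⟨hf1, hfK⟩, hfo, hfc⟩ := hf
      have hof : (0 : ℝ) < o f := lt_of_lt_of_le hsy hfo
      have hof1 : 1 ≤ o f := by exact_mod_cast hof
      have hf0 : (0 : ℝ) < f := by exact_mod_cast hf1
      have h3 := card_class_le hf1 hof1 hfc x hx0.le ((Finset.Icc 1 N).filter (fun n => f ∣ n ∧ n ≡ 1 [MOD o f]))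
        (by
          intro n hn
          have hn' := Finset.mem_filter.1 hn
          exact ⟨(Nat.le_floor_iff hx0.le).1 (Finset.mem_Icc.1 hn'.1).2, hn'.2⟩)
      refine h3.trans ?_
      have h4 : x / ((f : ℝ) * (o f : ℝ)) ≤ x / √y * (1 / (f : ℝ)) := by
        rw [div_mul_div_comm, mul_one]
        apply div_le_div_of_nonneg_left hx0.le (by positivity)
        rw [mul_comm]
        exact mul_le_mul_of_nonneg_left hfo hf0.le
      linarith
    rw [Finset.sum_add_distrib, Finset.sum_const, nsmul_eq_mul, mul_one, ← Finset.mul_sum] at h1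
    have h5 : (F.card : ℝ) ≤ x ^ (3 / 4 : ℝ) := by
      have h6 : F.card ≤ K := by
        refine (Finset.card_filter_le _ _).trans ?_
        rw [Nat.card_Icc]; omega
      have h7 : (K : ℝ) ≤ x ^ (3 / 4 : ℝ) := Nat.floor_le (by positivity)
      have h8 : (F.card : ℝ) ≤ K := by exact_mod_cast h6
      linarith
    have h6 : ∑ f ∈ F, (1 / (f : ℝ)) ≤ 1 + Real.log x := by
      refine le_trans ?_ (sum_inv_le x hx)
      apply Finset.sum_le_sum_of_subset_of_nonneg
      · intro f hf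
        have hf' := Finset.mem_Icc.1 (Finset.mem_filter.1 hf).1
        rw [Finset.mem_Icc]
        refine ⟨hf'.1, hf'.2.trans ?_⟩
        apply Nat.floor_le_floor
        calc x ^ (3 / 4 : ℝ) ≤ x ^ (1 : ℝ) := Real.rpow_le_rpow_of_exponent_le hx (by norm_num)
          _ = x := Real.rpow_one x
      · intro i _ _
        positivity
    have h7 : x / √y * ∑ f ∈ F, (1 / (f : ℝ)) ≤ x / √y * (1 + Real.log x) :=
      mul_le_mul_of_nonneg_left h6 (by positivity)
    calc (B.card : ℝ) ≤ (F.card : ℝ) + x / √y * ∑ f ∈ F, (1 / (f : ℝ)) := h1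
      _ ≤ x ^ (3 / 4 : ℝ) + x / √y * (1 + Real.log x) := add_le_add h5 h7
      _ = x ^ (3 / 4 : ℝ) + x * (1 + Real.log x) / √y := by ring
  have hcard : (S.card : ℝ) ≤ (A.card : ℝ) + B.card := by
    have : S.card ≤ A.card + B.card := (Finset.card_le_card hsub).trans (Finset.card_union_le _ _)
    exact_mod_cast this
  linarith

/-- The form used in S2. -/
theorem big_le (x z : ℝ) (hz : 1 ≤ z) (hzx : z ^ 4 ≤ x) :
    (Big x z : ℝ) ≤ 5 * x * (1 + Real.log x) ^ 2 / √z := by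
  have hz4 : 1 ≤ z ^ 4 := one_le_pow₀ hz
  have hx : 1 ≤ x := hz4.trans hzx
  have hx0 : (0 : ℝ) < x := by linarith
  have hlog : 0 ≤ Real.log x := Real.log_nonneg hx
  have hsz : 0 < √z := Real.sqrt_pos.2 (by linarith)
  have h1 : (Big x z : ℝ) ≤ (({n : ℕ | (n : ℝ) ≤ x ∧ Nat.FermatPsp n 2 ∧ z ≤ (orderOf (2 : ZMod n) : ℝ)}.ncard : ℕ) : ℝ) := by
    have h2 : Big x z ≤ {n : ℕ | (n : ℝ) ≤ x ∧ Nat.FermatPsp n 2 ∧ z ≤ (orderOf (2 : ZMod n) : ℝ)}.ncard := by
      apply Set.ncard_le_ncard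
      · rintro n ⟨h3, h4, h5⟩
        exact ⟨h3, h4, h5.le⟩
      · apply (Set.finite_Iic ⌊x⌋₊).subset
        rintro n ⟨h3, -⟩
        exact Nat.le_floor h3
    exact_mod_cast h2
  have h2 := h1.trans (small_order x z hx hz)
  have h3 : √z ≤ x ^ (1 / 8 : ℝ) := by
    have h4 : z ≤ x ^ (1 / 4 : ℝ) := by
      have h5 : z = (z ^ 4) ^ (1 / 4 : ℝ) := by
        rw [← Real.rpow_natCast, ← Real.rpow_mul (by linarith)]
        norm_num
      rw [h5]
      exact Real.rpow_le_rpow (by positivity) hzx (by norm_num)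
    rw [Real.sqrt_eq_rpow]
    calc z ^ (1 / 2 : ℝ) ≤ (x ^ (1 / 4 : ℝ)) ^ (1 / 2 : ℝ) := Real.rpow_le_rpow (by linarith) h4 (by norm_num)
      _ = x ^ (1 / 8 : ℝ) := by rw [← Real.rpow_mul hx0.le]; norm_num
  have h4 : x ^ (3 / 4 : ℝ) ≤ x / √z := by
    rw [le_div_iff₀ hsz]
    calc x ^ (3 / 4 : ℝ) * √z ≤ x ^ (3 / 4 : ℝ) * x ^ (1 / 8 : ℝ) := mul_le_mul_of_nonneg_left h3 (by positivity)
      _ = x ^ (7 / 8 : ℝ) := by rw [← Real.rpow_add hx0]; norm_num
      _ ≤ x ^ (1 : ℝ) := Real.rpow_le_rpow_of_exponent_le hx (by norm_num)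
      _ = x := Real.rpow_one x
  have h5 : x / √z ≤ x / √z * (1 + Real.log x) ^ 2 := by
    apply le_mul_of_one_le_right (by positivity)
    exact one_le_pow₀ (by linarith)
  have h6 : x * (1 + Real.log x) / √z ≤ x / √z * (1 + Real.log x) ^ 2 := by
    have h7 : (1 + Real.log x) ≤ (1 + Real.log x) ^ 2 := by nlinarith
    calc x * (1 + Real.log x) / √z = x / √z * (1 + Real.log x) := by ring
      _ ≤ x / √z * (1 + Real.log x) ^ 2 := mul_le_mul_of_nonneg_left h7 (by positivity)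
  have h8 : 5 * x * (1 + Real.log x) ^ 2 / √z = 5 * (x / √z * (1 + Real.log x) ^ 2) := by ring
  have h9 : 0 ≤ x / √z * (1 + Real.log x) ^ 2 := by positivity
  rw [h8]
  linarith

end PspOrd
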