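import Pool.Agent.Lib.PspOrd.S0

open Filter Topology Finset

namespace PspOrd

theorem sum_inv_le (x : ℝ) (hx : 1 ≤ x) : ∑ j ∈ Finset.Icc 1 ⌊x⌋₊, (1 / (j : ℝ)) ≤ 1 + Real.log x := by
  have h := harmonic_floor_le_one_add_log x hx
  rw [harmonic_eq_sum_Icc] at h
  push_cast at h
  simpa [one_div] using h

/-- The order of 2 modulo `d`. -/
noncomputable def o (d : ℕ) : ℕ := orderOf (2 : ZMod d)

theorem two_pow_o (d : ℕ) : (2 : ZMod d) ^ o d = 1 := pow_orderOf_eq_one _

theorem psp_pow {n d : ℕ} (hn : Nat.FermatPsp n 2) (hd : d ∣ n) : (2 : ZMod d) ^ (n - 1) = 1 := by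
  have h1 : n ∣ 2 ^ (n - 1) - 1 := hn.1
  have h2 : d ∣ 2 ^ (n - 1) - 1 := hd.trans h1
  have h3 : ((2 ^ (n - 1) - 1 : ℕ) : ZMod d) = 0 := (ZMod.natCast_eq_zero_iff _ _).2 h2
  have h4 : 1 ≤ 2 ^ (n - 1) := Nat.one_le_two_pow
  rw [Nat.cast_sub h4] at h3
  push_cast at h3
  exact sub_eq_zero.1 h3

theorem o_dvd {n d : ℕ} (hn : Nat.FermatPsp n 2) (hd : d ∣ n) : o d ∣ n - 1 :=
  orderOf_dvd_of_pow_eq_one (psp_pow hn hd)

theorem o_pos {n d : ℕ} (hn : Nat.FermatPsp n 2) (hd : d ∣ n) : 0 < o d := by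
  have h1 : 1 < n := hn.2.2
  have := o_dvd hn hd
  exact Nat.pos_of_dvd_of_pos this (by omega)

theorem modEq_o {n d : ℕ} (hn : Nat.FermatPsp n 2) (hd : d ∣ n) : n ≡ 1 [MOD o d] := by
  have h1 : 1 < n := hn.2.2
  exact ((Nat.modEq_iff_dvd' h1.le).2 (o_dvd hn hd)).symm

theorem coprime_o {n d : ℕ} (hn : Nat.FermatPsp n 2) (hd : d ∣ n) : Nat.Coprime d (o d) := by
  have h1 : 1 < n := hn.2.2
  have h2 : Nat.Coprime n (n - 1) := by
    rw [Nat.coprime_self_sub_right h1.le]
    exact Nat.coprime_one_right n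
  exact Nat.Coprime.coprime_dvd_left hd (Nat.Coprime.coprime_dvd_right (o_dvd hn hd) h2)

/-- `q` divides `2 ^ (o q) - 1`. -/
theorem dvd_two_pow_o (q : ℕ) : q ∣ 2 ^ o q - 1 := by
  have h1 : ((2 ^ o q - 1 : ℕ) : ZMod q) = 0 := by
    rw [Nat.cast_sub Nat.one_le_two_pow]
    push_cast
    rw [two_pow_o, sub_self]
  exact (ZMod.natCast_eq_zero_iff _ _).1 h1

/-- A prime power `q` prime to `o q` is `1` modulo `o q`. -/
theorem primePow_modEq {q : ℕ} (hq : IsPrimePow q) (hodd : Nat.Coprime 2 q) (hc : Nat.Coprime q (o q)) :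
    q ≡ 1 [MOD o q] := by
  obtain ⟨p, a, hp, ha, rfl⟩ := (isPrimePow_nat_iff q).1 hq
  have h1 : o (p ^ a) ∣ Nat.totient (p ^ a) := by
    apply orderOf_dvd_of_pow_eq_one
    have := Nat.ModEq.pow_totient hodd
    have h2 := (ZMod.natCast_eq_natCast_iff _ _ _).2 this
    push_cast at h2
    exact h2
  rw [Nat.totient_prime_pow hp ha] at h1
  have h3 : Nat.Coprime (o (p ^ a)) (p ^ (a - 1)) := by
    have h4 : Nat.Coprime (p ^ a) (o (p ^ a)) := hc
    have h5 : Nat.Coprime p (o (p ^ a)) := Nat.Coprime.coprime_dvd_left (dvd_pow_self p ha.ne') h4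
    exact (Nat.Coprime.pow_left _ h5).symm
  have h6 : o (p ^ a) ∣ p - 1 := h3.dvd_of_dvd_mul_left h1
  have h7 : p ≡ 1 [MOD o (p ^ a)] := ((Nat.modEq_iff_dvd' hp.one_lt.le).2 h6).symm
  simpa using h7.pow a

/-- The sum over prime powers. -/
theorem sum_primePow_le (x s : ℝ) (hx : 1 ≤ x) (hs : 1 ≤ s) (T : Finset ℕ)
    (hT : ∀ q ∈ T, (q : ℝ) ≤ x ∧ s ^ 2 ≤ (q : ℝ) ∧ IsPrimePow q ∧ Nat.Coprime 2 q ∧ Nat.Coprime q (o q) ∧ 0 < o q) :
    ∑ q ∈ T, 1 / ((q : ℝ) * (o q : ℝ)) ≤ (1 + Real.log x) ^ 2 / s := by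
  have hlog : 0 ≤ Real.log x := Real.log_nonneg hx
  have hmap : ∀ q ∈ T, o q ∈ Finset.Icc 1 ⌊x⌋₊ := by
    intro q hq
    obtain ⟨h1, h2, h3, h4, h5, h6⟩ := hT q hq
    rw [Finset.mem_Icc]
    refine ⟨h6, ?_⟩
    have hq1 : 1 < q := h3.one_lt
    have : NeZero q := ⟨by omega⟩
    have h7 : o q ≤ Fintype.card (ZMod q) := orderOf_le_card_univ
    rw [ZMod.card] at h7
    exact h7.trans (Nat.le_floor h1)
  rw [← Finset.sum_fiberwise_of_maps_to hmap]
  have key : ∀ l ∈ Finset.Icc 1 ⌊x⌋₊, ∑ q ∈ T with o q = l, 1 / ((q : ℝ) * (o q : ℝ)) ≤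
      (1 / (l : ℝ)) * ((1 + Real.log x) / s) := by
    intro l hl
    have hl1 : 1 ≤ l := (Finset.mem_Icc.1 hl).1
    have hl0 : (0 : ℝ) < l := by exact_mod_cast hl1
    have e1 : ∑ q ∈ T with o q = l, 1 / ((q : ℝ) * (o q : ℝ)) =
        (1 / (l : ℝ)) * ∑ q ∈ T with o q = l, 1 / (q : ℝ) := by
      rw [Finset.mul_sum]
      apply Finset.sum_congr rfl
      intro q hq
      rw [(Finset.mem_filter.1 hq).2]
      rw [one_div_mul_one_div, mul_comm]
    rw [e1]
    apply mul_le_mul_of_nonneg_left _ (by positivity)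
    rcases le_or_gt (l : ℝ) s with hls | hls
    · have c1 : (T.filter (fun q => o q = l)).card ≤ l := by
        apply card_primePow_le _ _ hl1
        intro q hq
        have hq' := Finset.mem_filter.1 hq
        refine ⟨(hT q hq'.1).2.2.1, ?_⟩
        rw [← hq'.2]
        exact dvd_two_pow_o q
      calc ∑ q ∈ T with o q = l, 1 / (q : ℝ) ≤ ∑ q ∈ T with o q = l, 1 / s ^ 2 := by
            apply Finset.sum_le_sum
            intro q hq
            exact one_div_le_one_div_of_le (by positivity) (hT q (Finset.mem_filter.1 hq).1).2.1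
        _ = ((T.filter (fun q => o q = l)).card : ℝ) * (1 / s ^ 2) := by
            rw [Finset.sum_const, nsmul_eq_mul]
        _ ≤ s * (1 / s ^ 2) := by
            apply mul_le_mul_of_nonneg_right _ (by positivity)
            calc ((T.filter (fun q => o q = l)).card : ℝ) ≤ l := by exact_mod_cast c1
              _ ≤ s := hls
        _ = 1 / s := by field_simp
        _ ≤ (1 + Real.log x) / s := by
            apply div_le_div_of_nonneg_right _ (by positivity)
            linarith
    · have c2 : ∑ q ∈ T with o q = l, 1 / (q : ℝ) ≤ ∑ j ∈ Finset.Icc 1 ⌊x⌋₊, (1 / (l : ℝ)) * (1 / (j : ℝ)) := by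
        have hq1 : ∀ q ∈ T.filter (fun q => o q = l), ∃ j, 1 ≤ j ∧ q = 1 + j * l := by
          intro q hq
          have hq' := Finset.mem_filter.1 hq
          obtain ⟨h1, h2, h3, h4, h5, h6⟩ := hT q hq'.1
          have hm : q ≡ 1 [MOD l] := by
            have := primePow_modEq h3 h4 h5
            rwa [hq'.2] at this
          have hgt : 1 < q := h3.one_lt
          have hd : l ∣ q - 1 := (Nat.modEq_iff_dvd' hgt.le).1 hm.symm
          obtain ⟨j, hj⟩ := hd
          refine ⟨j, ?_, ?_⟩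
          · rcases Nat.eq_zero_or_pos j with h | h
            · subst h; omega
            · exact h
          · rw [mul_comm l j] at hj
            omega
        calc ∑ q ∈ T with o q = l, 1 / (q : ℝ)
            ≤ ∑ q ∈ T with o q = l, (1 / (l : ℝ)) * (1 / (((q - 1) / l : ℕ) : ℝ)) := by
              apply Finset.sum_le_sum
              intro q hq
              obtain ⟨j, hj, hqj⟩ := hq1 q hq
              have e : (q - 1) / l = j := by
                rw [hqj, Nat.add_sub_cancel_left, Nat.mul_div_cancel _ hl1]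
              rw [e, one_div_mul_one_div]
              apply one_div_le_one_div_of_le
              · have : (0 : ℝ) < j := by exact_mod_cast hj
                positivity
              · rw [hqj]
                push_cast
                nlinarith
          _ = ∑ j ∈ (T.filter (fun q => o q = l)).image (fun q => (q - 1) / l), (1 / (l : ℝ)) * (1 / (j : ℝ)) := by
              rw [Finset.sum_image]
              intro q hq q' hq' he
              obtain ⟨j, hj, hqj⟩ := hq1 q hq
              obtain ⟨j', hj', hqj'⟩ := hq1 q' hq'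
              simp only at he
              rw [hqj, hqj', Nat.add_sub_cancel_left, Nat.add_sub_cancel_left, Nat.mul_div_cancel _ hl1,
                Nat.mul_div_cancel _ hl1] at he
              rw [hqj, hqj', he]
          _ ≤ ∑ j ∈ Finset.Icc 1 ⌊x⌋₊, (1 / (l : ℝ)) * (1 / (j : ℝ)) := by
              apply Finset.sum_le_sum_of_subset_of_nonneg
              · intro j hj
                obtain ⟨q, hq, rfl⟩ := Finset.mem_image.1 hj
                obtain ⟨j, hj, hqj⟩ := hq1 q hq
                have e : (q - 1) / l = j := by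
                  rw [hqj, Nat.add_sub_cancel_left, Nat.mul_div_cancel _ hl1]
                rw [e, Finset.mem_Icc]
                refine ⟨hj, ?_⟩
                apply Nat.le_floor
                have h1 := (hT q (Finset.mem_filter.1 hq).1).1
                have : (j : ℝ) ≤ (q : ℝ) := by
                  rw [hqj]
                  push_cast
                  have : (1 : ℝ) ≤ l := by exact_mod_cast hl1
                  have : (0 : ℝ) ≤ j := by positivity
                  nlinarith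
                linarith
              · intro i _ _
                positivity
      calc ∑ q ∈ T with o q = l, 1 / (q : ℝ) ≤ ∑ j ∈ Finset.Icc 1 ⌊x⌋₊, (1 / (l : ℝ)) * (1 / (j : ℝ)) := c2
        _ = (1 / (l : ℝ)) * ∑ j ∈ Finset.Icc 1 ⌊x⌋₊, (1 / (j : ℝ)) := by rw [Finset.mul_sum]
        _ ≤ (1 / s) * (1 + Real.log x) := by
            apply mul_le_mul
            · exact one_div_le_one_div_of_le (by positivity) hls.le
            · exact sum_inv_le x hx
            · apply Finset.sum_nonneg; intro i _; positivity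
            · positivity
        _ = (1 + Real.log x) / s := by ring
  calc ∑ l ∈ Finset.Icc 1 ⌊x⌋₊, ∑ q ∈ T with o q = l, 1 / ((q : ℝ) * (o q : ℝ))
      ≤ ∑ l ∈ Finset.Icc 1 ⌊x⌋₊, (1 / (l : ℝ)) * ((1 + Real.log x) / s) := Finset.sum_le_sum key
    _ = (∑ l ∈ Finset.Icc 1 ⌊x⌋₊, (1 / (l : ℝ))) * ((1 + Real.log x) / s) := by rw [Finset.sum_mul]
    _ ≤ (1 + Real.log x) * ((1 + Real.log x) / s) := by
        apply mul_le_mul_of_nonneg_right (sum_inv_le x hx)
        positivity
    _ = (1 + Real.log x) ^ 2 / s := by ring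

end PspOrd
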