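import Pool.Agent.Lib.PspOrd.S1

/-!
Erdős' conjecture gives an exponent `L` such that `2 ^ L - 1` has many divisors which are `1` mod `L`.
-/

open Filter Topology Finset

namespace PspOrd

private lemma ncard_eq {x : ℝ} (hx : 0 ≤ x) (P : ℕ → Prop) [DecidablePred P] :
    {n : ℕ | (n : ℝ) ≤ x ∧ P n}.ncard = ((Finset.range (⌊x⌋₊ + 1)).filter P).card := by
  rw [← Set.ncard_coe_finset]
  congr 1
  ext n
  simp only [Set.mem_setOf_eq, Finset.coe_filter, Finset.mem_range, Nat.lt_succ_iff,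
    Nat.le_floor_iff hx]

private lemma ord_facts {n : ℕ} (h : Nat.FermatPsp n 2) :
    1 ≤ orderOf (2 : ZMod n) ∧ n ∣ 2 ^ orderOf (2 : ZMod n) - 1 ∧
      n ≡ 1 [MOD orderOf (2 : ZMod n)] := by
  obtain ⟨h1, -, h2⟩ := h
  have h3 : n ∣ 2 ^ (n - 1) - 1 := h1
  have hpow : ∀ k : ℕ, n ∣ 2 ^ k - 1 ↔ (2 : ZMod n) ^ k = 1 := by
    intro k
    rw [← ZMod.natCast_eq_zero_iff, Nat.cast_sub Nat.one_le_two_pow]
    simp [sub_eq_zero]
  have h4 : (2 : ZMod n) ^ (n - 1) = 1 := (hpow _).1 h3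
  have h5 : orderOf (2 : ZMod n) ∣ n - 1 := orderOf_dvd_of_pow_eq_one h4
  refine ⟨?_, (hpow _).2 (pow_orderOf_eq_one _), ?_⟩
  · exact Nat.pos_of_dvd_of_pos h5 (by omega)
  · exact ((Nat.modEq_iff_dvd' h2.le).2 h5).symm

private lemma psi_le {x z : ℝ} (hx : 0 ≤ x) (hz : 0 ≤ z) (B : ℝ)
    (hB : ∀ L : ℕ, 1 ≤ L → (L : ℝ) ≤ z → (Dv x L : ℝ) ≤ B) (hB0 : 0 ≤ B) :
    (Psi x : ℝ) ≤ (Big x z : ℝ) + z * B := by
  classical
  have h1 : Psi x = ((Finset.range (⌊x⌋₊ + 1)).filter (fun n => Nat.FermatPsp n 2)).card :=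
    ncard_eq hx _
  have h2 : Big x z = ((Finset.range (⌊x⌋₊ + 1)).filter
      (fun n => Nat.FermatPsp n 2 ∧ z < (orderOf (2 : ZMod n) : ℝ))).card := ncard_eq hx _
  have h3 : ∀ L, Dv x L = ((Finset.range (⌊x⌋₊ + 1)).filter
      (fun n => n ∣ 2 ^ L - 1 ∧ n ≡ 1 [MOD L])).card := fun L => ncard_eq hx _
  have h4 : (Finset.range (⌊x⌋₊ + 1)).filter (fun n => Nat.FermatPsp n 2) ⊆
      (Finset.range (⌊x⌋₊ + 1)).filter
        (fun n => Nat.FermatPsp n 2 ∧ z < (orderOf (2 : ZMod n) : ℝ)) ∪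
      (Finset.Icc 1 ⌊z⌋₊).biUnion fun L => (Finset.range (⌊x⌋₊ + 1)).filter
        (fun n => n ∣ 2 ^ L - 1 ∧ n ≡ 1 [MOD L]) := by
    intro n hn
    rw [Finset.mem_filter] at hn
    obtain ⟨hn1, hn2⟩ := hn
    obtain ⟨h5, h6, h7⟩ := ord_facts hn2
    rw [Finset.mem_union]
    by_cases h8 : z < (orderOf (2 : ZMod n) : ℝ)
    · left
      rw [Finset.mem_filter]
      exact ⟨hn1, hn2, h8⟩
    · right
      rw [Finset.mem_biUnion]
      refine ⟨orderOf (2 : ZMod n), ?_, ?_⟩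
      · rw [Finset.mem_Icc]
        exact ⟨h5, Nat.le_floor (not_lt.1 h8)⟩
      · rw [Finset.mem_filter]
        exact ⟨hn1, h6, h7⟩
  have h9 : Psi x ≤ Big x z + ∑ L ∈ Finset.Icc 1 ⌊z⌋₊, Dv x L := by
    rw [h1, h2]
    refine (Finset.card_le_card h4).trans ((Finset.card_union_le _ _).trans ?_)
    refine Nat.add_le_add_left ?_ _
    refine Finset.card_biUnion_le.trans (le_of_eq ?_)
    exact Finset.sum_congr rfl fun L _ => (h3 L).symm
  have h10 : (Psi x : ℝ) ≤ (Big x z : ℝ) + ∑ L ∈ Finset.Icc 1 ⌊z⌋₊, (Dv x L : ℝ) := by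
    exact_mod_cast h9
  refine h10.trans (add_le_add le_rfl ?_)
  have h11 : ∑ L ∈ Finset.Icc 1 ⌊z⌋₊, (Dv x L : ℝ) ≤ ∑ _L ∈ Finset.Icc 1 ⌊z⌋₊, B := by
    refine Finset.sum_le_sum fun L hL => ?_
    rw [Finset.mem_Icc] at hL
    exact hB L hL.1 ((Nat.le_floor_iff hz).1 hL.2)
  refine h11.trans ?_
  rw [Finset.sum_const, Nat.card_Icc, nsmul_eq_mul]
  refine mul_le_mul_of_nonneg_right ?_ hB0
  simpa using Nat.floor_le hz

private lemma psi_ge (h : Q1) (δ : ℝ) (h0 : 0 < δ) (h1 : δ < 1) :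
    ∀ᶠ x : ℝ in atTop, x ^ (1 - δ) ≤ (Psi x : ℝ) := by
  have h2 : ∀ᶠ x : ℝ in atTop, 1 - δ < Real.log (Psi x) / Real.log x :=
    (tendsto_order.1 h).1 _ (by linarith)
  filter_upwards [h2, eventually_gt_atTop 1] with x hx hx1
  have hl : 0 < Real.log x := Real.log_pos hx1
  rw [lt_div_iff₀ hl] at hx
  have hP : 0 < (Psi x : ℝ) := by
    rcases Nat.eq_zero_or_pos (Psi x) with h3 | h3
    · rw [h3] at hx
      simp only [Nat.cast_zero, Real.log_zero] at hx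
      nlinarith
    · exact_mod_cast h3
  rw [Real.rpow_def_of_pos (by linarith : (0 : ℝ) < x), ← Real.le_log_iff_exp_le hP]
  linarith [mul_comm (Real.log x) (1 - δ)]

private lemma log_small (r : ℝ) (hr : 0 < r) :
    ∀ᶠ x : ℝ in atTop, 1 + Real.log x ≤ x ^ r / 4 := by
  have h1 : ∀ᶠ x : ℝ in atTop, ‖Real.log x‖ ≤ 8⁻¹ * ‖x ^ r‖ :=
    (isLittleO_log_rpow_atTop hr).bound (by norm_num)
  have h2 : ∀ᶠ x : ℝ in atTop, (8 : ℝ) ≤ x ^ r :=
    (tendsto_rpow_atTop hr).eventually_ge_atTop 8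
  filter_upwards [h1, h2, eventually_gt_atTop 1] with x h1 h2 h3
  rw [Real.norm_of_nonneg (Real.log_nonneg h3.le), Real.norm_of_nonneg (by positivity)] at h1
  linarith

private lemma dv_aux (h : Q1) (e : ℝ) (he : 0 < e) (he1 : e ≤ 1) : ∀ᶠ x : ℝ in atTop,
    ∃ L : ℕ, 1 ≤ L ∧ (L : ℝ) ≤ x ^ e ∧ x ^ (1 - e) ≤ (Dv x L : ℝ) := by
  have h1 := psi_ge h (e / 32) (by positivity) (by linarith)
  have h2 := log_small (3 * e / 64) (by positivity)
  have h3 : ∀ᶠ x : ℝ in atTop, (4 : ℝ) ≤ x ^ (23 * e / 32) :=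
    (tendsto_rpow_atTop (by positivity)).eventually_ge_atTop 4
  filter_upwards [h1, h2, h3, eventually_gt_atTop 1] with x h1 h2 h3 hx
  have hx0 : 0 < x := by linarith
  set z : ℝ := x ^ (e / 4) with hz
  have hz1 : 1 ≤ z := Real.one_le_rpow hx.le (by positivity)
  have hz4 : z ^ 4 ≤ x := by
    rw [hz, ← Real.rpow_natCast, ← Real.rpow_mul hx0.le]
    calc x ^ (e / 4 * ((4 : ℕ) : ℝ)) ≤ x ^ (1 : ℝ) :=
          Real.rpow_le_rpow_of_exponent_le hx.le (by push_cast; linarith)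
      _ = x := Real.rpow_one x
  have hb := big_le x z hz1 hz4
  have hsz : √z = x ^ (e / 8) := by
    rw [hz, Real.sqrt_eq_rpow, ← Real.rpow_mul hx0.le]
    congr 1
    ring
  have hlog : 0 ≤ 1 + Real.log x := by linarith [Real.log_nonneg hx.le]
  have hb2 : (Big x z : ℝ) ≤ x ^ (1 - e / 32) / 2 := by
    refine hb.trans ?_
    rw [hsz, div_le_iff₀ (by positivity)]
    have h5 : (1 + Real.log x) ^ 2 ≤ x ^ (3 * e / 32) / 16 := by
      have h6 : (1 + Real.log x) ^ 2 ≤ (x ^ (3 * e / 64) / 4) ^ 2 :=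
        pow_le_pow_left₀ hlog h2 2
      have h7 : (x ^ (3 * e / 64) / 4) ^ 2 = x ^ (3 * e / 32) / 16 := by
        rw [div_pow, ← Real.rpow_natCast, ← Real.rpow_mul hx0.le]
        congr 1
        · congr 1
          push_cast
          ring
        · norm_num
      linarith
    have h8 : x ^ (1 - e / 32) / 2 * x ^ (e / 8) = x * x ^ (3 * e / 32) / 2 := by
      have h9 : x ^ (1 - e / 32) * x ^ (e / 8) = x * x ^ (3 * e / 32) := by
        rw [← Real.rpow_add hx0]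
        nth_rewrite 2 [← Real.rpow_one x]
        rw [← Real.rpow_add hx0]
        congr 1
        ring
      linarith
    rw [h8]
    have h10 : 5 * x * (1 + Real.log x) ^ 2 ≤ 5 * x * (x ^ (3 * e / 32) / 16) :=
      mul_le_mul_of_nonneg_left h5 (by positivity)
    have h11 : 0 ≤ x * x ^ (3 * e / 32) := by positivity
    linarith
  by_contra hcon
  push Not at hcon
  have hB : ∀ L : ℕ, 1 ≤ L → (L : ℝ) ≤ z → (Dv x L : ℝ) ≤ x ^ (1 - e) := by
    intro L hL1 hL2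
    refine (hcon L hL1 (hL2.trans ?_)).le
    exact Real.rpow_le_rpow_of_exponent_le hx.le (by linarith)
  have h12 := psi_le hx0.le (by linarith : (0 : ℝ) ≤ z) _ hB (by positivity)
  have h13 : z * x ^ (1 - e) ≤ x ^ (1 - e / 32) / 4 := by
    have h14 : x ^ (23 * e / 32) * (z * x ^ (1 - e)) = x ^ (1 - e / 32) := by
      rw [hz, ← Real.rpow_add hx0, ← Real.rpow_add hx0]
      congr 1
      ring
    have h15 : 4 * (z * x ^ (1 - e)) ≤ x ^ (23 * e / 32) * (z * x ^ (1 - e)) :=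
      mul_le_mul_of_nonneg_right h3 (by positivity)
    linarith
  have h16 : 0 < x ^ (1 - e / 32) := by positivity
  linarith

theorem dv_of_Q1 (h : Q1) : ∀ ε : ℝ, 0 < ε → ∀ᶠ x : ℝ in atTop,
    ∃ L : ℕ, 1 ≤ L ∧ (L : ℝ) ≤ x ^ ε ∧ x ^ (1 - ε) ≤ (Dv x L : ℝ) := by
  intro ε hε
  filter_upwards [dv_aux h (min ε 1) (lt_min hε one_pos) (min_le_right _ _),
    eventually_ge_atTop 1] with x hx hx1
  obtain ⟨L, h1, h2, h3⟩ := hx
  refine ⟨L, h1, h2.trans ?_, le_trans ?_ h3⟩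
  · exact Real.rpow_le_rpow_of_exponent_le hx1 (min_le_left _ _)
  · exact Real.rpow_le_rpow_of_exponent_le hx1 (by linarith [min_le_left ε 1])

end PspOrd
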