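import Pool.Agent.Lib.PspOrd.Defs

open Filter Topology Finset

namespace PspOrd

lemma ord_pos_of_psp {n : ℕ} (h : Nat.FermatPsp n 2) : 1 ≤ orderOf (2 : ZMod n) ∧
    n ∣ 2 ^ orderOf (2 : ZMod n) - 1 ∧ n ≡ 1 [MOD orderOf (2 : ZMod n)] := by
  obtain ⟨hp, -, h1⟩ := h
  unfold Nat.ProbablePrime at hp
  have key : ∀ k : ℕ, n ∣ 2 ^ k - 1 ↔ (2 : ZMod n) ^ k = 1 := by
    intro k
    rw [← ZMod.natCast_eq_zero_iff, Nat.cast_sub Nat.one_le_two_pow, sub_eq_zero]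
    push_cast
    exact Iff.rfl
  have h2 : (2 : ZMod n) ^ (n - 1) = 1 := (key _).1 hp
  have hpos : 0 < n - 1 := by omega
  refine ⟨orderOf_pos_iff.2 (isOfFinOrder_iff_pow_eq_one.2 ⟨n - 1, hpos, h2⟩), ?_, ?_⟩
  · rw [key]
    exact pow_orderOf_eq_one _
  · exact ((Nat.modEq_iff_dvd' (by omega : 1 ≤ n)).2 (orderOf_dvd_of_pow_eq_one h2)).symm

lemma fin_le (x : ℝ) (p : ℕ → Prop) : {n : ℕ | (n : ℝ) ≤ x ∧ p n}.Finite := by
  refine (Set.finite_Iic ⌊x⌋₊).subset ?_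
  rintro n ⟨hn, -⟩
  exact Nat.le_floor hn

/-- pigeonhole -/
lemma exists_L (x z : ℝ) (hz : 1 ≤ z) : ∃ L : ℕ, 1 ≤ L ∧ (L : ℝ) ≤ z ∧
    (Psi x : ℝ) - Big x z ≤ z * Dv x L := by
  classical
  set P : Set ℕ := {n : ℕ | (n : ℝ) ≤ x ∧ Nat.FermatPsp n 2} with hP
  set B : Set ℕ := {n : ℕ | (n : ℝ) ≤ x ∧ Nat.FermatPsp n 2 ∧ z < (orderOf (2 : ZMod n) : ℝ)}
    with hB
  have hPf : P.Finite := fin_le x _
  have hBf : B.Finite := fin_le x _
  have hBP : B ⊆ P := fun n hn => ⟨hn.1, hn.2.1⟩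
  set S : Finset ℕ := hPf.toFinset \ hBf.toFinset with hS
  have hcard : (Psi x : ℝ) - Big x z = S.card := by
    have h1 : Psi x = hPf.toFinset.card := Set.ncard_eq_toFinset_card P hPf
    have h2 : Big x z = hBf.toFinset.card := Set.ncard_eq_toFinset_card B hBf
    have h3 : hBf.toFinset ⊆ hPf.toFinset := Set.Finite.toFinset_subset_toFinset.2 hBP
    have h4 := Finset.card_sdiff_add_card_eq_card h3
    rw [h1, h2, ← h4]
    push_cast
    ring
  have hmap : ∀ n ∈ S, orderOf (2 : ZMod n) ∈ Finset.Icc 1 ⌊z⌋₊ := by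
    intro n hn
    rw [hS, Finset.mem_sdiff, Set.Finite.mem_toFinset, Set.Finite.mem_toFinset] at hn
    have h1 := ord_pos_of_psp hn.1.2
    rw [mem_Icc]
    refine ⟨h1.1, Nat.le_floor ?_⟩
    by_contra hcon
    push Not at hcon
    exact hn.2 ⟨hn.1.1, hn.1.2, hcon⟩
  have hsum := Finset.card_eq_sum_card_fiberwise hmap
  have hne : (Finset.Icc 1 ⌊z⌋₊).Nonempty := ⟨1, by
    rw [mem_Icc]
    exact ⟨le_refl _, Nat.le_floor (by simpa using hz)⟩⟩
  obtain ⟨L, hL, hmax⟩ := Finset.exists_max_image (Finset.Icc 1 ⌊z⌋₊)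
    (fun L => (S.filter fun n => orderOf (2 : ZMod n) = L).card) hne
  rw [mem_Icc] at hL
  have hz0 : 0 ≤ z := by linarith
  have hfl : (⌊z⌋₊ : ℝ) ≤ z := Nat.floor_le hz0
  refine ⟨L, hL.1, le_trans (by exact_mod_cast hL.2) hfl, ?_⟩
  rw [hcard]
  have h5 : S.card ≤ ⌊z⌋₊ * (S.filter fun n => orderOf (2 : ZMod n) = L).card := by
    rw [hsum]
    calc ∑ b ∈ Finset.Icc 1 ⌊z⌋₊, (S.filter fun n => orderOf (2 : ZMod n) = b).card
        ≤ ∑ b ∈ Finset.Icc 1 ⌊z⌋₊, (S.filter fun n => orderOf (2 : ZMod n) = L).card :=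
          Finset.sum_le_sum fun b hb => hmax b hb
      _ = ⌊z⌋₊ * (S.filter fun n => orderOf (2 : ZMod n) = L).card := by
          rw [Finset.sum_const, Nat.card_Icc, smul_eq_mul]
          simp
  have h6 : (S.filter fun n => orderOf (2 : ZMod n) = L).card ≤ Dv x L := by
    unfold Dv
    rw [← Set.ncard_coe_finset]
    refine Set.ncard_le_ncard ?_ (fin_le x _)
    intro n hn
    rw [Finset.mem_coe, Finset.mem_filter, hS, Finset.mem_sdiff, Set.Finite.mem_toFinset] at hn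
    have h1 := ord_pos_of_psp hn.1.1.2
    rw [hn.2] at h1
    exact ⟨hn.1.1.1, h1.2.1, h1.2.2⟩
  calc (S.card : ℝ) ≤ (⌊z⌋₊ : ℝ) * (S.filter fun n => orderOf (2 : ZMod n) = L).card := by
        exact_mod_cast h5
    _ ≤ z * Dv x L := by
        refine mul_le_mul hfl (by exact_mod_cast h6) (by positivity) hz0

lemma psi_ge (h : Q1) {η : ℝ} (h0 : 0 < η) (h1 : η < 1) :
    ∀ᶠ x : ℝ in atTop, x ^ (1 - η) ≤ (Psi x : ℝ) := by
  have e1 := (tendsto_order.1 h).1 (1 - η) (by linarith)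
  filter_upwards [e1, eventually_gt_atTop 1] with x hx hx1
  have hlog : 0 < Real.log x := Real.log_pos hx1
  rw [lt_div_iff₀ hlog] at hx
  have hpos : 0 < (Psi x : ℝ) := by
    rcases Nat.eq_zero_or_pos (Psi x) with h2 | h2
    · rw [h2] at hx
      simp only [Nat.cast_zero, Real.log_zero] at hx
      have : 0 < (1 - η) * Real.log x := mul_pos (by linarith) hlog
      linarith
    · exact_mod_cast h2
  rw [← Real.log_le_log_iff (Real.rpow_pos_of_pos (by linarith) _) hpos,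
    Real.log_rpow (by linarith)]
  exact hx.le

lemma log_small {η : ℝ} (h0 : 0 < η) (c : ℝ) :
    ∀ᶠ x : ℝ in atTop, c * (1 + Real.log x) ^ 2 ≤ x ^ η := by
  have h1 : (fun x : ℝ => 1 + Real.log x) =o[atTop] fun x : ℝ => x ^ (η / 3) :=
    (Asymptotics.isLittleO_const_left.2 (Or.inr (tendsto_norm_atTop_atTop.comp
      (tendsto_rpow_atTop (by positivity))))).add
      (isLittleO_log_rpow_atTop (by positivity))
  have h2 : (fun x : ℝ => c * (1 + Real.log x) ^ 2) =o[atTop] fun x : ℝ => x ^ η := by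
    have h3 := (h1.pow (by norm_num : 0 < 2)).const_mul_left c
    refine h3.trans_isBigO ?_
    refine Asymptotics.IsBigO.of_bound 1 ?_
    filter_upwards [eventually_ge_atTop 1] with x hx
    rw [one_mul, Real.norm_of_nonneg (by positivity), Real.norm_of_nonneg (by positivity),
      ← Real.rpow_natCast, ← Real.rpow_mul (by linarith)]
    exact Real.rpow_le_rpow_of_exponent_le hx (by push_cast; linarith)
  have h4 := h2.bound (by norm_num : (0 : ℝ) < 1)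
  filter_upwards [h4, eventually_ge_atTop 1] with x hx hx1
  rw [one_mul, Real.norm_eq_abs, Real.norm_of_nonneg (by positivity)] at hx
  exact (le_abs_self _).trans hx

theorem dv_of_Q1' (big_le : ∀ x z : ℝ, 1 ≤ z → z ^ 4 ≤ x →
      (Big x z : ℝ) ≤ 5 * x * (1 + Real.log x) ^ 2 / √z)
    (h : Q1) : ∀ ε : ℝ, 0 < ε → ∀ᶠ x : ℝ in atTop,
    ∃ L : ℕ, 1 ≤ L ∧ (L : ℝ) ≤ x ^ ε ∧ x ^ (1 - ε) ≤ (Dv x L : ℝ) := by
  intro ε hε
  set δ : ℝ := min ε 1 with hδ
  have hδ0 : 0 < δ := lt_min hε one_pos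
  have hδ1 : δ ≤ 1 := min_le_right _ _
  have hδε : δ ≤ ε := min_le_left _ _
  filter_upwards [psi_ge h (η := δ / 32) (by positivity) (by linarith),
    log_small (η := 3 * δ / 32) (by positivity) 10,
    (tendsto_rpow_atTop (y := δ * (23 / 32)) (by positivity)).eventually_ge_atTop 2,
    eventually_ge_atTop 1] with x hpsi hlog h2 hx
  have hx0 : 0 < x := by linarith
  have hz : 1 ≤ x ^ (δ / 4) := Real.one_le_rpow hx (by positivity)
  have hz0 : 0 < x ^ (δ / 4) := by linarith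
  have hz4 : (x ^ (δ / 4)) ^ 4 ≤ x := by
    rw [← Real.rpow_natCast, ← Real.rpow_mul hx0.le]
    calc x ^ (δ / 4 * ((4 : ℕ) : ℝ)) ≤ x ^ (1 : ℝ) :=
          Real.rpow_le_rpow_of_exponent_le hx (by push_cast; linarith)
      _ = x := Real.rpow_one x
  have hbig := big_le x _ hz hz4
  have hsq : √(x ^ (δ / 4)) = x ^ (δ / 8) := by
    rw [Real.sqrt_eq_rpow, ← Real.rpow_mul hx0.le]
    congr 1
    ring
  rw [hsq] at hbig
  have hbig2 : (Big x (x ^ (δ / 4)) : ℝ) ≤ x ^ (1 - δ / 32) / 2 := by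
    refine hbig.trans ?_
    rw [div_le_div_iff₀ (Real.rpow_pos_of_pos hx0 _) (by norm_num : (0 : ℝ) < 2),
      ← Real.rpow_add hx0]
    have e : x ^ (1 - δ / 32 + δ / 8) = x * x ^ (3 * δ / 32) := by
      rw [show 1 - δ / 32 + δ / 8 = 1 + 3 * δ / 32 by ring, Real.rpow_add hx0, Real.rpow_one]
    rw [e]
    calc 5 * x * (1 + Real.log x) ^ 2 * 2 = x * (10 * (1 + Real.log x) ^ 2) := by ring
      _ ≤ x * x ^ (3 * δ / 32) := mul_le_mul_of_nonneg_left hlog hx0.le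
  obtain ⟨L, hL1, hLz, hLD⟩ := exists_L x (x ^ (δ / 4)) hz
  refine ⟨L, hL1, hLz.trans (Real.rpow_le_rpow_of_exponent_le hx (by linarith)), ?_⟩
  have h3 : x ^ (1 - δ / 32) / 2 ≤ x ^ (δ / 4) * Dv x L := by linarith
  have h4 : x ^ (1 - δ) * x ^ (δ / 4) ≤ x ^ (1 - δ / 32) / 2 := by
    rw [le_div_iff₀ (by norm_num : (0 : ℝ) < 2), ← Real.rpow_add hx0]
    have e : x ^ (1 - δ / 32) = x ^ (1 - δ + δ / 4) * x ^ (δ * (23 / 32)) := by
      rw [← Real.rpow_add hx0]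
      congr 1
      ring
    rw [e]
    exact mul_le_mul_of_nonneg_left h2 (Real.rpow_pos_of_pos hx0 _).le
  have h5 : x ^ (1 - δ) ≤ (Dv x L : ℝ) := by
    have h6 : x ^ (1 - δ) * x ^ (δ / 4) ≤ (Dv x L : ℝ) * x ^ (δ / 4) := by linarith
    exact le_of_mul_le_mul_right h6 hz0
  exact (Real.rpow_le_rpow_of_exponent_le hx (by linarith)).trans h5

end PspOrd
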