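import Pool.Agent.Lib.PspOrd.Defs

/-!
# Many divisors `≡ 1 (mod L)` of `2 ^ L - 1` give many pseudoprimes
-/

open Filter Topology Finset

namespace PspOrd

private theorem card_primes_le' {L : ℕ} (T : Finset ℕ) (h : ∀ p ∈ T, p.Prime ∧ p ∣ 2 ^ L - 1)
    (hL : 1 ≤ L) : T.card ≤ L := by
  have h1 : ∏ p ∈ T, p ∣ 2 ^ L - 1 :=
    Finset.prod_primes_dvd _ (fun p hp => (h p hp).1.prime) fun p hp => (h p hp).2
  have h2 : (0 : ℕ) < 2 ^ L - 1 := by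
    have : 2 ^ 1 ≤ 2 ^ L := Nat.pow_le_pow_right (by norm_num) hL
    omega
  have h3 : ∏ p ∈ T, p ≤ 2 ^ L - 1 := Nat.le_of_dvd h2 h1
  have h4 : 2 ^ T.card ≤ ∏ p ∈ T, p := by
    calc 2 ^ T.card = ∏ p ∈ T, 2 := by rw [Finset.prod_const]
      _ ≤ ∏ p ∈ T, p := Finset.prod_le_prod' fun p hp => (h p hp).1.two_le
  have h5 : 2 ^ T.card < 2 ^ L := by omega
  exact ((Nat.pow_lt_pow_iff_right (by norm_num)).1 h5).le

private theorem fin_le (x : ℝ) (P : ℕ → Prop) : {n : ℕ | (n : ℝ) ≤ x ∧ P n}.Finite := by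
  refine (Finset.range (⌊x⌋₊ + 1)).finite_toSet.subset fun n hn => ?_
  simp only [Finset.coe_range, Set.mem_Iio]
  exact Nat.lt_succ_of_le (Nat.le_floor hn.1)

/-- The pseudoprimes among the divisors. -/
private theorem dv_le (x : ℝ) (L : ℕ) (hL : 1 ≤ L) : Dv x L ≤ Psi x + 1 + L := by
  classical
  have hpow : 2 ≤ 2 ^ L := by
    calc 2 = 2 ^ 1 := by norm_num
      _ ≤ 2 ^ L := Nat.pow_le_pow_right (by norm_num) hL
  have h1 : {n : ℕ | (n : ℝ) ≤ x ∧ n ∣ 2 ^ L - 1 ∧ n ≡ 1 [MOD L]} ⊆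
      ({n : ℕ | (n : ℝ) ≤ x ∧ Nat.FermatPsp n 2} ∪ {1}) ∪
        {n : ℕ | (n : ℝ) ≤ x ∧ (n.Prime ∧ n ∣ 2 ^ L - 1)} := by
    rintro n ⟨hn, hd, hm⟩
    have hn0 : n ≠ 0 := by
      rintro rfl
      have := Nat.eq_zero_of_zero_dvd hd
      omega
    rcases eq_or_ne n 1 with rfl | hn1
    · exact Or.inl (Or.inr rfl)
    · by_cases hp : n.Prime
      · exact Or.inr ⟨hn, hp, hd⟩
      · refine Or.inl (Or.inl ⟨hn, ?_, hp, by omega⟩)
        have h2 : L ∣ n - 1 := (Nat.modEq_iff_dvd' (by omega : 1 ≤ n)).1 hm.symm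
        obtain ⟨k, hk⟩ := h2
        have h3 : 2 ^ L - 1 ∣ (2 ^ L) ^ k - 1 := by
          have := Nat.sub_dvd_pow_sub_pow (2 ^ L) 1 k
          rwa [one_pow] at this
        show n ∣ 2 ^ (n - 1) - 1
        rw [hk, pow_mul]
        exact hd.trans h3
  have h2 := Set.ncard_le_ncard h1
    (((fin_le x _).union (Set.finite_singleton 1)).union (fin_le x _))
  have h3 : {n : ℕ | (n : ℝ) ≤ x ∧ (n.Prime ∧ n ∣ 2 ^ L - 1)}.ncard ≤ L := by
    have hf := fin_le x (fun n => n.Prime ∧ n ∣ 2 ^ L - 1)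
    rw [Set.ncard_eq_toFinset_card _ hf]
    refine card_primes_le' _ (fun p hp => ?_) hL
    exact ((Set.Finite.mem_toFinset hf).1 hp).2
  have h4 := Set.ncard_union_le ({n : ℕ | (n : ℝ) ≤ x ∧ Nat.FermatPsp n 2} ∪ {1})
    {n : ℕ | (n : ℝ) ≤ x ∧ (n.Prime ∧ n ∣ 2 ^ L - 1)}
  have h5 := Set.ncard_union_le {n : ℕ | (n : ℝ) ≤ x ∧ Nat.FermatPsp n 2} {1}
  rw [Set.ncard_singleton] at h5
  unfold Dv Psi
  omega

private theorem psi_le (x : ℝ) (hx : 0 ≤ x) : (Psi x : ℝ) ≤ x := by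
  have h1 : {n : ℕ | (n : ℝ) ≤ x ∧ Nat.FermatPsp n 2} ⊆ ((Finset.Icc 1 ⌊x⌋₊ : Finset ℕ) : Set ℕ) := by
    rintro n ⟨hn, -, -, h⟩
    rw [Finset.coe_Icc]
    exact ⟨h.le, Nat.le_floor hn⟩
  have h2 := Set.ncard_le_ncard h1 (Finset.finite_toSet _)
  rw [Set.ncard_coe_finset, Nat.card_Icc, Nat.add_sub_cancel] at h2
  calc (Psi x : ℝ) ≤ (⌊x⌋₊ : ℝ) := by exact_mod_cast h2
    _ ≤ x := Nat.floor_le hx

theorem Q1_of_dv (h : ∀ ε : ℝ, 0 < ε → ∀ᶠ x : ℝ in atTop,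
    ∃ L : ℕ, 1 ≤ L ∧ (L : ℝ) ≤ x ^ ε ∧ x ^ (1 - ε) ≤ (Dv x L : ℝ)) : Q1 := by
  unfold Q1
  refine tendsto_order.2 ⟨fun a ha => ?_, fun a ha => ?_⟩
  · obtain ⟨ε, hε, hε4, hεa⟩ : ∃ ε : ℝ, 0 < ε ∧ ε ≤ 1 / 4 ∧ a < 1 - 2 * ε := by
      refine ⟨min ((1 - a) / 3) (1 / 4), ?_, min_le_right _ _, ?_⟩
      · exact lt_min (by linarith) (by norm_num)
      · have := min_le_left ((1 - a) / 3) (1 / 4)
        linarith
    have h3 : ∀ᶠ x : ℝ in atTop, 3 ≤ x ^ ε := (tendsto_rpow_atTop hε).eventually_ge_atTop 3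
    filter_upwards [h ε hε, h3, eventually_gt_atTop 1] with x ⟨L, hL, hLx, hD⟩ h3 hx
    have hx0 : 0 < x := by linarith
    have h4 : (Dv x L : ℝ) ≤ Psi x + 1 + L := by exact_mod_cast dv_le x L hL
    have h5 : x ^ (1 - ε) = x ^ (1 - 2 * ε) * x ^ ε := by
      rw [← Real.rpow_add hx0]; congr 1; ring
    have h6 : x ^ ε ≤ x ^ (1 - 2 * ε) :=
      Real.rpow_le_rpow_of_exponent_le hx.le (by linarith)
    have h7 : x ^ (1 - 2 * ε) ≤ (Psi x : ℝ) := by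
      have h8 : x ^ (1 - 2 * ε) * x ^ ε ≤ Psi x + 1 + x ^ ε := by
        rw [← h5]; linarith
      nlinarith
    have h8 : 0 < Real.log x := Real.log_pos hx
    have h9 : 0 < x ^ (1 - 2 * ε) := Real.rpow_pos_of_pos hx0 _
    have h10 : (1 - 2 * ε) * Real.log x ≤ Real.log (Psi x) := by
      rw [← Real.log_rpow hx0]
      exact Real.log_le_log h9 h7
    rw [lt_div_iff₀ h8]
    nlinarith
  · filter_upwards [eventually_gt_atTop 1] with x hx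
    have h8 : 0 < Real.log x := Real.log_pos hx
    have h1 : Real.log (Psi x) ≤ Real.log x := by
      rcases Nat.eq_zero_or_pos (Psi x) with h0 | h0
      · rw [h0]; simp [h8.le]
      · exact Real.log_le_log (by exact_mod_cast h0) (psi_le x (by linarith))
    rw [div_lt_iff₀ h8]
    nlinarith

end PspOrd
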