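import Pool.Agent.Lib.PspOrd.Defs

/-!
# Rankin's bound
-/

open Filter Topology Finset

namespace PspOrd

/-- `n ↦ n ^ (-σ)` as a multiplicative map -/
noncomputable def s4_f (σ : ℝ) (hσ : 0 < σ) : ℕ →*₀ ℝ where
  toFun n := (n : ℝ) ^ (-σ)
  map_zero' := by
    rw [Nat.cast_zero, Real.zero_rpow (by linarith)]
  map_one' := by simp
  map_mul' a b := by
    rw [Nat.cast_mul, Real.mul_rpow (Nat.cast_nonneg a) (Nat.cast_nonneg b)]

theorem s4_f_apply (σ : ℝ) (hσ : 0 < σ) (n : ℕ) : s4_f σ hσ n = (n : ℝ) ^ (-σ) := rfl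

theorem s4_log {t : ℝ} (h0 : 0 ≤ t) (h1 : t ≤ 1 / 2) : -Real.log (1 - t) ≤ 2 * t := by
  have hp : 0 < 1 - t := by linarith
  have h2 := Real.one_sub_inv_le_log_of_pos hp
  have h3 : (1 - t)⁻¹ ≤ 1 + 2 * t := by
    rw [inv_le_comm₀ hp (by linarith), inv_le_iff_one_le_mul₀ (by linarith)]
    nlinarith
  linarith

theorem s4_half {p : ℕ} (hp : 3 ≤ p) {σ : ℝ} (hσ : 7 / 10 ≤ σ) : (p : ℝ) ^ (-σ) ≤ 1 / 2 := by
  have hp3 : (3 : ℝ) ≤ p := by exact_mod_cast hp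
  have h1 : (p : ℝ) ^ (-σ) ≤ (p : ℝ) ^ (-(7 / 10 : ℝ)) :=
    Real.rpow_le_rpow_of_exponent_le (by linarith) (by linarith)
  have h2 : (p : ℝ) ^ (-(7 / 10 : ℝ)) ≤ (3 : ℝ) ^ (-(7 / 10 : ℝ)) :=
    Real.rpow_le_rpow_of_nonpos (by norm_num) hp3 (by norm_num)
  have h3 : (2 : ℝ) ≤ (3 : ℝ) ^ (7 / 10 : ℝ) := by
    have h4 : ((3 : ℝ) ^ (7 / 10 : ℝ)) ^ (10 : ℕ) = 3 ^ 7 := by
      rw [← Real.rpow_natCast, ← Real.rpow_mul (by norm_num)]
      norm_num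
    by_contra hc
    push Not at hc
    have h5 : ((3 : ℝ) ^ (7 / 10 : ℝ)) ^ (10 : ℕ) < 2 ^ 10 :=
      pow_lt_pow_left₀ hc (by positivity) (by norm_num)
    rw [h4] at h5
    norm_num at h5
  have h6 : (3 : ℝ) ^ (-(7 / 10 : ℝ)) ≤ 1 / 2 := by
    rw [Real.rpow_neg (by norm_num), one_div]
    exact inv_anti₀ (by norm_num) h3
  linarith

/-- Rankin's bound: if `M` is odd and at least `x ^ (1 - δ)` numbers `n ≤ x` divide `M`, then the sum of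
`p ^ (-σ)` over the primes `p ∣ M`, `p ≤ x` is at least `(1 - δ - σ) / 2 * log x`. -/
theorem rankin {M : ℕ} (hM : Odd M) {x δ σ : ℝ} (hx : 1 ≤ x) (hσ : 7 / 10 ≤ σ)
    (h : x ^ (1 - δ) ≤ ((({n ∈ Finset.Icc 1 ⌊x⌋₊ | n ∣ M} : Finset ℕ)).card : ℝ)) :
    (1 - δ - σ) / 2 * Real.log x ≤ ∑ p ∈ (Finset.Icc 1 ⌊x⌋₊).filter (fun p => p.Prime ∧ p ∣ M), (p : ℝ) ^ (-σ) := by
  have hσ0 : 0 < σ := by linarith
  have hx0 : 0 < x := by linarith
  set A : Finset ℕ := {n ∈ Finset.Icc 1 ⌊x⌋₊ | n ∣ M} with hA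
  set S : Finset ℕ := (Finset.Icc 1 ⌊x⌋₊).filter (fun p => p.Prime ∧ p ∣ M) with hS
  have hSp : ∀ p ∈ S, p.Prime ∧ 3 ≤ p := by
    intro p hp
    rw [hS, Finset.mem_filter] at hp
    obtain ⟨-, h1, h2⟩ := hp
    refine ⟨h1, ?_⟩
    rcases h1.eq_two_or_odd with h3 | h3
    · exfalso
      rw [h3] at h2
      exact (Nat.not_even_iff_odd.2 hM) (even_iff_two_dvd.2 h2)
    · have := h1.two_le
      omega
  have hfilter : (S.filter fun p => p.Prime) = S :=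
    Finset.filter_true_of_mem fun p hp => (hSp p hp).1
  obtain ⟨hsum, hhas⟩ := EulerProduct.summable_and_hasSum_factoredNumbers_prod_filter_prime_geometric
    (f := (s4_f σ hσ0 : ℕ →* ℝ)) (by
      intro p hp
      show ‖(p : ℝ) ^ (-σ)‖ < 1
      rw [Real.norm_of_nonneg (by positivity)]
      exact Real.rpow_lt_one_of_one_lt_of_neg (by exact_mod_cast hp.one_lt) (by linarith)) S
  rw [hfilter] at hhas
  -- the divisors are factored numbers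
  have hAf : ∀ n ∈ A, n ∈ Nat.factoredNumbers S := by
    intro n hn
    rw [hA, Finset.mem_filter, Finset.mem_Icc] at hn
    rw [Nat.mem_factoredNumbers']
    intro p hp hpn
    rw [hS, Finset.mem_filter, Finset.mem_Icc]
    exact ⟨⟨hp.one_lt.le, (Nat.le_of_dvd hn.1.1 hpn).trans hn.1.2⟩, hp, hpn.trans hn.2⟩
  have hle : ∑ n ∈ A, (n : ℝ) ^ (-σ) ≤ ∏ p ∈ S, (1 - (p : ℝ) ^ (-σ))⁻¹ := by
    have h1 : ∑ n ∈ A.attach, ((n : ℕ) : ℝ) ^ (-σ) = ∑ n ∈ A, (n : ℝ) ^ (-σ) :=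
      Finset.sum_attach A (fun n : ℕ => (n : ℝ) ^ (-σ))
    have h2 := sum_le_hasSum (A.attach.map ⟨fun n : {n // n ∈ A} =>
      (⟨(n : ℕ), hAf n n.2⟩ : Nat.factoredNumbers S), fun a b hab => by
        have := congrArg (fun z : Nat.factoredNumbers S => (z : ℕ)) hab
        exact Subtype.ext this⟩)
      (fun i _ => by
        show (0 : ℝ) ≤ ((i : ℕ) : ℝ) ^ (-σ)
        positivity) hhas
    rw [Finset.sum_map] at h2
    have h3 : ∏ p ∈ S, (1 - (s4_f σ hσ0 : ℕ →* ℝ) p)⁻¹ = ∏ p ∈ S, (1 - (p : ℝ) ^ (-σ))⁻¹ := rfl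
    rw [h3] at h2
    rw [← h1]
    exact h2
  have hcard : (A.card : ℝ) ≤ x ^ σ * ∏ p ∈ S, (1 - (p : ℝ) ^ (-σ))⁻¹ := by
    have h1 : (A.card : ℝ) ≤ ∑ n ∈ A, x ^ σ * (n : ℝ) ^ (-σ) := by
      rw [Finset.card_eq_sum_ones, Nat.cast_sum]
      refine Finset.sum_le_sum fun n hn => ?_
      rw [hA, Finset.mem_filter, Finset.mem_Icc] at hn
      have hn1 : (1 : ℝ) ≤ n := by exact_mod_cast hn.1.1
      have hnx : (n : ℝ) ≤ x := (Nat.le_floor_iff hx0.le).1 hn.1.2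
      rw [Nat.cast_one, Real.rpow_neg (by linarith), ← div_eq_mul_inv,
        le_div_iff₀ (by positivity), one_mul]
      exact Real.rpow_le_rpow (by linarith) hnx hσ0.le
    rw [← Finset.mul_sum] at h1
    exact h1.trans (mul_le_mul_of_nonneg_left hle (by positivity))
  have hfac : ∀ p ∈ S, 0 < 1 - (p : ℝ) ^ (-σ) := by
    intro p hp
    have := s4_half (hSp p hp).2 hσ
    linarith
  have h5 : x ^ (1 - δ) ≤ x ^ σ * ∏ p ∈ S, (1 - (p : ℝ) ^ (-σ))⁻¹ := h.trans hcard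
  have h6 := Real.log_le_log (by positivity) h5
  have hprod : 0 < ∏ p ∈ S, (1 - (p : ℝ) ^ (-σ))⁻¹ :=
    Finset.prod_pos fun p hp => inv_pos.2 (hfac p hp)
  rw [Real.log_mul (by positivity) hprod.ne', Real.log_rpow hx0, Real.log_rpow hx0,
    Real.log_prod (fun p hp => (inv_pos.2 (hfac p hp)).ne')] at h6
  have h7 : ∑ p ∈ S, Real.log (1 - (p : ℝ) ^ (-σ))⁻¹ ≤ 2 * ∑ p ∈ S, (p : ℝ) ^ (-σ) := by
    rw [Finset.mul_sum]
    refine Finset.sum_le_sum fun p hp => ?_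
    rw [Real.log_inv]
    exact s4_log (by positivity) (s4_half (hSp p hp).2 hσ)
  have h8 : (1 - δ - σ) * Real.log x ≤ 2 * ∑ p ∈ S, (p : ℝ) ^ (-σ) := by
    have e : (1 - δ - σ) * Real.log x = (1 - δ) * Real.log x - σ * Real.log x := by ring
    rw [e]
    linarith
  linarith

end PspOrd
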