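import Mathlib

/-!
# Few elements give a small sum

If a finite set `T` of positive integers has fewer than `y ^ (1 - ε)` elements up to `y` for every
`y ≥ Y`, then the sum of `t ^ (-(1 - ε / 2))` over `T` is at most `C + C * Y ^ (3 ε / 4)`.
-/

set_option autoImplicit false

open Filter Topology Finset

namespace PspOrd

/-- The elements below `Y`: a harmonic sum. -/
private theorem small_sum_low (ε : ℝ) (h0 : 0 < ε) (T : Finset ℕ) (Y : ℝ) (hY : 1 ≤ Y)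
    (hT : ∀ t ∈ T, 1 ≤ t) (hTY : ∀ t ∈ T, (t : ℝ) ≤ Y) :
    ∑ t ∈ T, (t : ℝ) ^ (-(1 - ε / 2)) ≤ (1 + 4 / ε) * Y ^ (3 * ε / 4) := by
  have hY0 : 0 < Y := by linarith
  have hterm : ∀ t ∈ T, (t : ℝ) ^ (-(1 - ε / 2)) ≤ Y ^ (ε / 2) * ((t : ℝ))⁻¹ := by
    intro t ht
    have ht1 : (1 : ℝ) ≤ t := by exact_mod_cast hT t ht
    have ht0 : (0 : ℝ) < t := by linarith
    have e : (t : ℝ) ^ (-(1 - ε / 2)) = (t : ℝ) ^ (ε / 2) * ((t : ℝ))⁻¹ := by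
      rw [← Real.rpow_neg_one, ← Real.rpow_add ht0]
      congr 1; ring
    rw [e]
    exact mul_le_mul_of_nonneg_right
      (Real.rpow_le_rpow ht0.le (hTY t ht) (by positivity)) (by positivity)
  have hsub : T ⊆ Finset.Icc 1 ⌊Y⌋₊ := by
    intro t ht
    rw [Finset.mem_Icc]
    exact ⟨hT t ht, Nat.le_floor (hTY t ht)⟩
  have hharm : ∑ t ∈ T, ((t : ℝ))⁻¹ ≤ 1 + Real.log Y := by
    calc ∑ t ∈ T, ((t : ℝ))⁻¹ ≤ ∑ t ∈ Finset.Icc 1 ⌊Y⌋₊, ((t : ℝ))⁻¹ :=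
          Finset.sum_le_sum_of_subset_of_nonneg hsub (fun _ _ _ => by positivity)
      _ = ((harmonic ⌊Y⌋₊ : ℚ) : ℝ) := by
          rw [harmonic_eq_sum_Icc]; push_cast; rfl
      _ ≤ 1 + Real.log Y := harmonic_floor_le_one_add_log Y hY
  have hlog : 1 + Real.log Y ≤ (1 + 4 / ε) * Y ^ (ε / 4) := by
    have h1 : Real.log Y ≤ Y ^ (ε / 4) / (ε / 4) := Real.log_le_rpow_div hY0.le (by positivity)
    have h2 : (1 : ℝ) ≤ Y ^ (ε / 4) := Real.one_le_rpow hY (by positivity)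
    have h3 : Y ^ (ε / 4) / (ε / 4) = 4 / ε * Y ^ (ε / 4) := by field_simp
    rw [h3] at h1
    linarith
  have hYe : 0 ≤ Y ^ (ε / 2) := by positivity
  calc ∑ t ∈ T, (t : ℝ) ^ (-(1 - ε / 2)) ≤ ∑ t ∈ T, Y ^ (ε / 2) * ((t : ℝ))⁻¹ :=
        Finset.sum_le_sum hterm
    _ = Y ^ (ε / 2) * ∑ t ∈ T, ((t : ℝ))⁻¹ := by rw [Finset.mul_sum]
    _ ≤ Y ^ (ε / 2) * ((1 + 4 / ε) * Y ^ (ε / 4)) :=
        mul_le_mul_of_nonneg_left (hharm.trans hlog) hYe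
    _ = (1 + 4 / ε) * (Y ^ (ε / 2) * Y ^ (ε / 4)) := by ring
    _ = (1 + 4 / ε) * Y ^ (3 * ε / 4) := by
        rw [← Real.rpow_add hY0]; congr 2; ring

/-- The elements from `Y` on: a convergent sum. -/
private theorem small_sum_high (ε : ℝ) (h0 : 0 < ε) (h1 : ε < 1) (T : Finset ℕ) (Y : ℝ)
    (hT : ∀ t ∈ T, 1 ≤ t)
    (hc : ∀ y : ℝ, Y ≤ y → ((T.filter (fun t : ℕ => (t : ℝ) ≤ y)).card : ℝ) < y ^ (1 - ε)) :
    ∑ t ∈ T.filter (fun t : ℕ => Y ≤ (t : ℝ)), (t : ℝ) ^ (-(1 - ε / 2)) ≤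
      ∑' k : ℕ, (k : ℝ) ^ (-((1 - ε / 2) / (1 - ε))) := by
  set s : ℝ := (1 - ε / 2) / (1 - ε) with hs
  have h1e : 0 < 1 - ε := by linarith
  have hs1 : 1 < s := by
    rw [hs, lt_div_iff₀ h1e]; linarith
  have hsum : Summable (fun k : ℕ => (k : ℝ) ^ (-s)) := Real.summable_nat_rpow.mpr (by linarith)
  set κ : ℕ → ℕ := fun t => (T.filter (fun t' : ℕ => t' ≤ t)).card with hκ
  have hκinj : Set.InjOn κ (T.filter (fun t : ℕ => Y ≤ (t : ℝ)) : Finset ℕ) := by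
    intro a ha b hb hab
    rw [Finset.mem_coe, Finset.mem_filter] at ha hb
    by_contra hne
    rcases lt_or_gt_of_ne hne with h | h
    · have : (T.filter (fun t' : ℕ => t' ≤ a)).card < (T.filter (fun t' : ℕ => t' ≤ b)).card := by
        apply Finset.card_lt_card
        rw [Finset.ssubset_iff_of_subset]
        · exact ⟨b, by simp [hb.1], by simp [hb.1, h]⟩
        · intro x hx
          rw [Finset.mem_filter] at hx ⊢
          exact ⟨hx.1, hx.2.trans h.le⟩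
      exact absurd hab (ne_of_lt this)
    · have : (T.filter (fun t' : ℕ => t' ≤ b)).card < (T.filter (fun t' : ℕ => t' ≤ a)).card := by
        apply Finset.card_lt_card
        rw [Finset.ssubset_iff_of_subset]
        · exact ⟨a, by simp [ha.1], by simp [ha.1, h]⟩
        · intro x hx
          rw [Finset.mem_filter] at hx ⊢
          exact ⟨hx.1, hx.2.trans h.le⟩
      exact absurd hab (ne_of_gt this)
  have hterm : ∀ t ∈ T.filter (fun t : ℕ => Y ≤ (t : ℝ)),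
      (t : ℝ) ^ (-(1 - ε / 2)) ≤ ((κ t : ℕ) : ℝ) ^ (-s) := by
    intro t ht
    rw [Finset.mem_filter] at ht
    have ht1 : (1 : ℝ) ≤ t := by exact_mod_cast hT t ht.1
    have ht0 : (0 : ℝ) < t := by linarith
    have hk := hc t ht.2
    have hk' : ((κ t : ℕ) : ℝ) < (t : ℝ) ^ (1 - ε) := by
      have : (T.filter (fun t' : ℕ => (t' : ℝ) ≤ (t : ℝ))) = T.filter (fun t' : ℕ => t' ≤ t) := by
        apply Finset.filter_congr; intro x _; exact Nat.cast_le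
      rw [this] at hk
      exact hk
    have hkpos : 0 < κ t := Finset.card_pos.mpr ⟨t, by simp [ht.1]⟩
    have hk0 : (0 : ℝ) < ((κ t : ℕ) : ℝ) := by exact_mod_cast hkpos
    have e : (t : ℝ) ^ (-(1 - ε / 2)) = ((t : ℝ) ^ (1 - ε)) ^ (-s) := by
      rw [← Real.rpow_mul ht0.le]
      congr 1
      rw [hs]; field_simp
    rw [e]
    exact Real.rpow_le_rpow_of_nonpos hk0 hk'.le (by linarith)
  calc ∑ t ∈ T.filter (fun t : ℕ => Y ≤ (t : ℝ)), (t : ℝ) ^ (-(1 - ε / 2))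
      ≤ ∑ t ∈ T.filter (fun t : ℕ => Y ≤ (t : ℝ)), ((κ t : ℕ) : ℝ) ^ (-s) := Finset.sum_le_sum hterm
    _ = ∑ k ∈ (T.filter (fun t : ℕ => Y ≤ (t : ℝ))).image κ, ((k : ℕ) : ℝ) ^ (-s) := by
        rw [Finset.sum_image hκinj]
    _ ≤ ∑' k : ℕ, (k : ℝ) ^ (-s) :=
        hsum.sum_le_tsum _ (fun _ _ => by positivity)

/-- If a set `T` of natural numbers `≥ 1` has fewer than `y ^ (1 - ε)` elements up to `y`, for every `y ≥ Y`, then
the sum of `t ^ (-(1 - ε / 2))` over `T` is at most `C + C * Y ^ (3 ε / 4)`, `C` depends on `ε` only. -/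
theorem small_sum (ε : ℝ) (h0 : 0 < ε) (h1 : ε < 1) : ∃ C : ℝ, 0 < C ∧ ∀ (T : Finset ℕ) (Y : ℝ), 1 ≤ Y →
    (∀ t ∈ T, 1 ≤ t) → (∀ y : ℝ, Y ≤ y → ((T.filter (fun t : ℕ => (t : ℝ) ≤ y)).card : ℝ) < y ^ (1 - ε)) →
    ∑ t ∈ T, (t : ℝ) ^ (-(1 - ε / 2)) ≤ C + C * Y ^ (3 * ε / 4) := by
  set A : ℝ := ∑' k : ℕ, (k : ℝ) ^ (-((1 - ε / 2) / (1 - ε))) with hA
  have hA0 : 0 ≤ A := tsum_nonneg (fun _ => by positivity)
  have hB0 : 0 < 1 + 4 / ε := by positivity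
  refine ⟨A + (1 + 4 / ε), by positivity, ?_⟩
  intro T Y hY hT hc
  have hYp : 0 ≤ Y ^ (3 * ε / 4) := by positivity
  have hsplit := Finset.sum_filter_add_sum_filter_not T (fun t : ℕ => Y ≤ (t : ℝ))
    (fun t : ℕ => (t : ℝ) ^ (-(1 - ε / 2)))
  have hhigh := small_sum_high ε h0 h1 T Y hT hc
  have hlow := small_sum_low ε h0 (T.filter (fun t : ℕ => ¬ Y ≤ (t : ℝ))) Y hY
    (fun t ht => hT t (Finset.mem_filter.mp ht).1)
    (fun t ht => (not_le.mp (Finset.mem_filter.mp ht).2).le)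
  rw [← hsplit]
  rw [← hA] at hhigh
  nlinarith [mul_nonneg hA0 hYp]

end PspOrd
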