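import Pool.Agent.Lib.PspOrd.S2
import Pool.Agent.Lib.PspOrd.S4
import Pool.Agent.Lib.PspOrd.S5

/-!
# The consequence on primes
-/

open Filter Topology Finset

namespace PspOrd

theorem s6_big {e C A : ℝ} (he : 0 < e) (hC : 0 < C) (hA : 0 ≤ A) :
    ∀ᶠ u : ℝ in atTop, C + C * (A + u ^ (3 / 4 : ℝ)) < e * u := by
  have h1 : ∀ᶠ u : ℝ in atTop, 2 * C / e < u ^ (1 / 4 : ℝ) :=
    (tendsto_rpow_atTop (by norm_num)).eventually_gt_atTop _
  have h2 : ∀ᶠ u : ℝ in atTop, 2 * (C + C * A) / e < u := eventually_gt_atTop _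
  filter_upwards [h1, h2, eventually_gt_atTop (0 : ℝ)] with u h1 h2 h3
  rw [div_lt_iff₀ he] at h1 h2
  have e1 : u = u ^ (3 / 4 : ℝ) * u ^ (1 / 4 : ℝ) := by
    rw [← Real.rpow_add h3]; norm_num
  have h4 : 0 < u ^ (3 / 4 : ℝ) := Real.rpow_pos_of_pos h3 _
  have h5 : 2 * C * u ^ (3 / 4 : ℝ) < u * e := by
    calc 2 * C * u ^ (3 / 4 : ℝ) < u ^ (1 / 4 : ℝ) * e * u ^ (3 / 4 : ℝ) :=
          mul_lt_mul_of_pos_right h1 h4
      _ = (u ^ (3 / 4 : ℝ) * u ^ (1 / 4 : ℝ)) * e := by ring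
      _ = u * e := by rw [← e1]
  nlinarith

theorem s6_aux (h : Q1) {ε : ℝ} (h0 : 0 < ε) (h1 : ε ≤ 1 / 2) {Y : ℝ} (hY : 1 ≤ Y) :
    ∃ y : ℝ, Y ≤ y ∧ ∃ L : ℕ, 1 ≤ L ∧
    (L : ℝ) ≤ Real.exp (y ^ ε) ∧ y ^ (1 - ε) ≤ (Pr y L : ℝ) := by
  by_contra hcon
  push Not at hcon
  obtain ⟨C, hC, hsmall⟩ := small_sum ε h0 (by linarith)
  have hlog : ∀ᶠ x : ℝ in atTop,
      C + C * (Y ^ (3 * ε / 4) + Real.log x ^ (3 / 4 : ℝ)) < ε / 8 * Real.log x :=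
    Real.tendsto_log_atTop.eventually
      (s6_big (by linarith) hC (Real.rpow_nonneg (by linarith) _))
  obtain ⟨x, hx1, hx2, L, hL1, hLx, hD⟩ := ((eventually_ge_atTop (1 : ℝ)).and
    (hlog.and (dv_of_Q1 h (ε / 4) (by linarith)))).exists
  have hx0 : 0 < x := by linarith
  have hL0 : (0 : ℝ) < L := by exact_mod_cast hL1
  have hlogL : Real.log L ≤ Real.log x := by
    have h2 := Real.log_le_log hL0 hLx
    rw [Real.log_rpow hx0] at h2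
    have h3 := Real.log_nonneg hx1
    nlinarith
  have hlogL0 : 0 ≤ Real.log L := Real.log_nonneg (by exact_mod_cast hL1)
  have hM0 : 0 < 2 ^ L - 1 := by
    have : 2 ^ 1 ≤ 2 ^ L := Nat.pow_le_pow_right (by norm_num) hL1
    omega
  have hM : Odd (2 ^ L - 1) := by
    have h2 : Even (2 ^ L) := by
      rw [Nat.even_pow]; exact ⟨even_two, by omega⟩
    have h3 : 1 ≤ 2 ^ L := Nat.one_le_two_pow
    obtain ⟨k, hk⟩ := h2
    exact ⟨k - 1, by omega⟩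
  -- the divisors
  have hcard : x ^ (1 - ε / 4) ≤
      ((({n ∈ Finset.Icc 1 ⌊x⌋₊ | n ∣ (2 ^ L - 1)} : Finset ℕ)).card : ℝ) := by
    refine hD.trans ?_
    have hsub : {n : ℕ | (n : ℝ) ≤ x ∧ n ∣ 2 ^ L - 1 ∧ n ≡ 1 [MOD L]} ⊆
        (({n ∈ Finset.Icc 1 ⌊x⌋₊ | n ∣ (2 ^ L - 1)} : Finset ℕ) : Set ℕ) := by
      rintro n ⟨hn1, hn2, -⟩
      rw [Finset.mem_coe, Finset.mem_filter, Finset.mem_Icc]
      refine ⟨⟨?_, (Nat.le_floor_iff hx0.le).2 hn1⟩, hn2⟩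
      exact Nat.pos_of_ne_zero fun h => by
        rw [h, zero_dvd_iff] at hn2
        omega
    have h2 := Set.ncard_le_ncard hsub (Finset.finite_toSet _)
    rw [Set.ncard_coe_finset] at h2
    unfold Dv
    exact_mod_cast h2
  have h4 := rankin (M := 2 ^ L - 1) hM (x := x) (δ := ε / 4) (σ := 1 - ε / 2) hx1
    (by linarith) hcard
  -- few primes
  set T : Finset ℕ := (Finset.Icc 1 ⌊x⌋₊).filter (fun p => p.Prime ∧ p ∣ 2 ^ L - 1) with hT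
  set Z : ℝ := max Y (Real.log L ^ (1 / ε)) with hZ
  have hZY : Y ≤ Z := le_max_left _ _
  have hZL : Real.log L ^ (1 / ε) ≤ Z := le_max_right _ _
  have h5 := hsmall T Z (hY.trans hZY) (by
    intro t ht
    rw [hT, Finset.mem_filter, Finset.mem_Icc] at ht
    exact ht.1.1) (by
    intro y hy
    have hy1 : 1 ≤ y := hY.trans (hZY.trans hy)
    have h6 : (L : ℝ) ≤ Real.exp (y ^ ε) := by
      have h7 : Real.log L ≤ y ^ ε := by
        have h8 : (Real.log L ^ (1 / ε)) ^ ε ≤ y ^ ε :=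
          Real.rpow_le_rpow (Real.rpow_nonneg hlogL0 _) (hZL.trans hy) h0.le
        rwa [← Real.rpow_mul hlogL0, one_div_mul_cancel h0.ne', Real.rpow_one] at h8
      calc (L : ℝ) = Real.exp (Real.log L) := (Real.exp_log hL0).symm
        _ ≤ _ := Real.exp_le_exp.2 h7
    have h9 := hcon y (hZY.trans hy) L hL1 h6
    refine lt_of_le_of_lt ?_ h9
    unfold Pr
    have hfin : {p : ℕ | (p : ℝ) ≤ y ∧ p.Prime ∧ p ∣ 2 ^ L - 1}.Finite := by
      refine (Set.finite_Iic ⌊y⌋₊).subset fun p hp => ?_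
      exact (Nat.le_floor_iff (by linarith)).2 hp.1
    have h10 : ((T.filter (fun t : ℕ => (t : ℝ) ≤ y) : Finset ℕ) : Set ℕ) ⊆
        {p : ℕ | (p : ℝ) ≤ y ∧ p.Prime ∧ p ∣ 2 ^ L - 1} := by
      intro p hp
      rw [Finset.mem_coe, Finset.mem_filter, hT, Finset.mem_filter] at hp
      exact ⟨hp.2, hp.1.2.1, hp.1.2.2⟩
    have h11 := Set.ncard_le_ncard h10 hfin
    rw [Set.ncard_coe_finset] at h11
    exact_mod_cast h11)
  have h12 : Z ^ (3 * ε / 4) ≤ Y ^ (3 * ε / 4) + Real.log x ^ (3 / 4 : ℝ) := by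
    have hYp : 0 ≤ Y ^ (3 * ε / 4) := Real.rpow_nonneg (by linarith) _
    have hlx : 0 ≤ Real.log x ^ (3 / 4 : ℝ) := Real.rpow_nonneg (Real.log_nonneg hx1) _
    rcases le_total Y (Real.log L ^ (1 / ε)) with h13 | h13
    · rw [hZ, max_eq_right h13, ← Real.rpow_mul hlogL0]
      have e1 : 1 / ε * (3 * ε / 4) = 3 / 4 := by field_simp
      rw [e1]
      have h14 : Real.log L ^ (3 / 4 : ℝ) ≤ Real.log x ^ (3 / 4 : ℝ) :=
        Real.rpow_le_rpow hlogL0 hlogL (by norm_num)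
      linarith
    · rw [hZ, max_eq_left h13]
      linarith
  have h15 : (1 - ε / 4 - (1 - ε / 2)) / 2 * Real.log x = ε / 8 * Real.log x := by ring
  rw [h15] at h4
  have h16 : C * Z ^ (3 * ε / 4) ≤ C * (Y ^ (3 * ε / 4) + Real.log x ^ (3 / 4 : ℝ)) :=
    mul_le_mul_of_nonneg_left h12 hC.le
  linarith

theorem primes_of_Q1 (h : Q1) : ∀ ε : ℝ, 0 < ε → ∀ Y : ℝ, ∃ y : ℝ, Y ≤ y ∧ ∃ L : ℕ, 1 ≤ L ∧
    (L : ℝ) ≤ Real.exp (y ^ ε) ∧ y ^ (1 - ε) ≤ (Pr y L : ℝ) := by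
  intro ε h0 Y
  obtain ⟨y, hy, L, hL, h1, h2⟩ := s6_aux h (ε := min ε (1 / 2)) (lt_min h0 (by norm_num))
    (min_le_right _ _) (Y := max Y 1) (le_max_right _ _)
  have hy1 : 1 ≤ y := (le_max_right _ _).trans hy
  refine ⟨y, (le_max_left _ _).trans hy, L, hL, h1.trans ?_, le_trans ?_ h2⟩
  · exact Real.exp_le_exp.2 (Real.rpow_le_rpow_of_exponent_le hy1 (min_le_left _ _))
  · exact Real.rpow_le_rpow_of_exponent_le hy1 (by linarith [min_le_left ε (1 / 2)])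

end PspOrd
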