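import Pool.Agent.Lib.PspOrd.S6

/-!
# The consequence on primes, uniform in `x`
-/

open Filter Topology Finset

namespace PspOrd

theorem primes_uniform (h : Q1) : ∀ ε A : ℝ, 0 < ε → 0 < A → ∀ᶠ x : ℝ in atTop,
    ∃ L : ℕ, 1 ≤ L ∧ (L : ℝ) ≤ x ^ ε ∧ ∃ y : ℝ, Real.log x ^ A ≤ y ∧ y ≤ x ∧ y ^ (1 - ε) ≤ (Pr y L : ℝ) := by
  intro ε A hε hA
  obtain ⟨δ, hδ0, hδε, hδ4, hδA⟩ : ∃ δ : ℝ, 0 < δ ∧ δ ≤ ε / 4 ∧ δ ≤ 1 / 4 ∧ δ ≤ 1 / (2 * A) :=
    ⟨min (ε / 4) (min (1 / 4) (1 / (2 * A))), by positivity, min_le_left _ _,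
      (min_le_right _ _).trans (min_le_left _ _), (min_le_right _ _).trans (min_le_right _ _)⟩
  obtain ⟨C, hC, hsmall⟩ := small_sum (2 * δ) (by linarith) (by linarith)
  have hlog : ∀ᶠ x : ℝ in atTop,
      C + C * (0 + Real.log x ^ (3 / 4 : ℝ)) < δ / 4 * Real.log x :=
    Real.tendsto_log_atTop.eventually (s6_big (by linarith) hC le_rfl)
  have hlog1 : ∀ᶠ x : ℝ in atTop, 1 ≤ Real.log x :=
    Real.tendsto_log_atTop.eventually (eventually_ge_atTop 1)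
  have hlogA : ∀ᶠ x : ℝ in atTop, Real.log x ^ A ≤ x := by
    have h1 := (isLittleO_log_rpow_rpow_atTop A (zero_lt_one : (0 : ℝ) < 1)).bound zero_lt_one
    filter_upwards [h1, eventually_ge_atTop (1 : ℝ)] with x hx hx1
    rw [Real.rpow_one, one_mul, Real.norm_of_nonneg (Real.rpow_nonneg (Real.log_nonneg hx1) _),
      Real.norm_of_nonneg (by linarith)] at hx
    exact hx
  filter_upwards [eventually_ge_atTop (1 : ℝ), hlog, hlog1, hlogA, dv_of_Q1 h (δ / 2) (by linarith)] with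
    x hx1 hx2 hx3 hx4 ⟨L, hL1, hLx, hD⟩
  have hx0 : 0 < x := by linarith
  have hM0 : 0 < 2 ^ L - 1 := by
    have : 2 ^ 1 ≤ 2 ^ L := Nat.pow_le_pow_right (by norm_num) hL1
    omega
  have hM : Odd (2 ^ L - 1) := by
    have h2 : Even (2 ^ L) := by
      rw [Nat.even_pow]; exact ⟨even_two, by omega⟩
    have h3 : 1 ≤ 2 ^ L := Nat.one_le_two_pow
    obtain ⟨k, hk⟩ := h2
    exact ⟨k - 1, by omega⟩
  refine ⟨L, hL1, hLx.trans (Real.rpow_le_rpow_of_exponent_le hx1 (by linarith)), ?_⟩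
  by_contra hcon
  push Not at hcon
  have hcard : x ^ (1 - δ / 2) ≤
      ((({n ∈ Finset.Icc 1 ⌊x⌋₊ | n ∣ (2 ^ L - 1)} : Finset ℕ)).card : ℝ) := by
    refine hD.trans ?_
    have hsub : {n : ℕ | (n : ℝ) ≤ x ∧ n ∣ 2 ^ L - 1 ∧ n ≡ 1 [MOD L]} ⊆
        (({n ∈ Finset.Icc 1 ⌊x⌋₊ | n ∣ (2 ^ L - 1)} : Finset ℕ) : Set ℕ) := by
      rintro n ⟨hn1, hn2, -⟩
      rw [Finset.mem_coe, Finset.mem_filter, Finset.mem_Icc]
      refine ⟨⟨?_, (Nat.le_floor_iff hx0.le).2 hn1⟩, hn2⟩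
      exact Nat.pos_of_ne_zero fun h => by
        rw [h, zero_dvd_iff] at hn2
        omega
    have h2 := Set.ncard_le_ncard hsub (Finset.finite_toSet _)
    rw [Set.ncard_coe_finset] at h2
    unfold Dv
    exact_mod_cast h2
  have h4 := rankin (M := 2 ^ L - 1) hM (x := x) (δ := δ / 2) (σ := 1 - 2 * δ / 2) hx1
    (by linarith) hcard
  set T : Finset ℕ := (Finset.Icc 1 ⌊x⌋₊).filter (fun p => p.Prime ∧ p ∣ 2 ^ L - 1) with hT
  have hZ1 : 1 ≤ Real.log x ^ A := Real.one_le_rpow hx3 hA.le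
  have hcnt : ∀ y : ℝ, 1 ≤ y → ((T.filter (fun t : ℕ => (t : ℝ) ≤ y)).card : ℝ) ≤ (Pr y L : ℝ) := by
    intro y hy
    unfold Pr
    have hfin : {p : ℕ | (p : ℝ) ≤ y ∧ p.Prime ∧ p ∣ 2 ^ L - 1}.Finite := by
      refine (Set.finite_Iic ⌊y⌋₊).subset fun p hp => ?_
      exact (Nat.le_floor_iff (by linarith)).2 hp.1
    have h10 : ((T.filter (fun t : ℕ => (t : ℝ) ≤ y) : Finset ℕ) : Set ℕ) ⊆
        {p : ℕ | (p : ℝ) ≤ y ∧ p.Prime ∧ p ∣ 2 ^ L - 1} := by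
      intro p hp
      rw [Finset.mem_coe, Finset.mem_filter, hT, Finset.mem_filter] at hp
      exact ⟨hp.2, hp.1.2.1, hp.1.2.2⟩
    have h11 := Set.ncard_le_ncard h10 hfin
    rw [Set.ncard_coe_finset] at h11
    exact_mod_cast h11
  have h5 := hsmall T (Real.log x ^ A) hZ1 (by
    intro t ht
    rw [hT, Finset.mem_filter, Finset.mem_Icc] at ht
    exact ht.1.1) (by
    intro y hy
    have hy1 : 1 ≤ y := hZ1.trans hy
    rcases le_or_gt y x with hyx | hyx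
    · have h9 := hcon y hy hyx
      have h10 := hcnt y hy1
      have h11 : y ^ (1 - ε) ≤ y ^ (1 - 2 * δ) := Real.rpow_le_rpow_of_exponent_le hy1 (by linarith)
      linarith
    · have h9 := hcon x hx4 le_rfl
      have h10 := hcnt x hx1
      have h11 : x ^ (1 - ε) ≤ x ^ (1 - 2 * δ) := Real.rpow_le_rpow_of_exponent_le hx1 (by linarith)
      have h12 : x ^ (1 - 2 * δ) ≤ y ^ (1 - 2 * δ) := Real.rpow_le_rpow hx0.le hyx.le (by linarith)
      have h13 : (T.filter (fun t : ℕ => (t : ℝ) ≤ y)).card ≤ (T.filter (fun t : ℕ => (t : ℝ) ≤ x)).card := by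
        apply Finset.card_le_card
        intro t ht
        rw [Finset.mem_filter] at ht ⊢
        refine ⟨ht.1, ?_⟩
        have h14 := ht.1
        rw [hT, Finset.mem_filter, Finset.mem_Icc] at h14
        exact (Nat.le_floor_iff hx0.le).1 h14.1.2
      have h15 : ((T.filter (fun t : ℕ => (t : ℝ) ≤ y)).card : ℝ) ≤ (T.filter (fun t : ℕ => (t : ℝ) ≤ x)).card := by
        exact_mod_cast h13
      linarith)
  have h6 : (Real.log x ^ A) ^ (3 * (2 * δ) / 4) ≤ Real.log x ^ (3 / 4 : ℝ) := by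
    rw [← Real.rpow_mul (by linarith)]
    apply Real.rpow_le_rpow_of_exponent_le hx3
    have h7 : A * δ ≤ 1 / 2 := by
      calc A * δ ≤ A * (1 / (2 * A)) := mul_le_mul_of_nonneg_left hδA hA.le
        _ = 1 / 2 := by field_simp
    nlinarith
  have h7 : C * (Real.log x ^ A) ^ (3 * (2 * δ) / 4) ≤ C * Real.log x ^ (3 / 4 : ℝ) :=
    mul_le_mul_of_nonneg_left h6 hC.le
  have h15 : (1 - δ / 2 - (1 - 2 * δ / 2)) / 2 * Real.log x = δ / 4 * Real.log x := by ring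
  rw [h15] at h4
  linarith

end PspOrd
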