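import Pool.Agent.Lib.PspOrd.S7
import Pool.Agent.Lib.PspOrd.S1a

/-!
# Smooth orders
-/

open Filter Topology Finset

namespace PspOrd

/-- The primes `p ≤ y` for which all prime factors of the order of `2` are `≤ y ^ ε`. -/
noncomputable def Sm (y ε : ℝ) : ℕ :=
  {p : ℕ | (p : ℝ) ≤ y ∧ p.Prime ∧ ∀ q : ℕ, q.Prime → q ∣ orderOf (2 : ZMod p) → (q : ℝ) ≤ y ^ ε}.ncard

theorem pr_le_sm {y ε : ℝ} (hy : 1 ≤ y) {L : ℕ} (hL : 1 ≤ L) :
    (Pr y L : ℝ) ≤ (Sm y ε : ℝ) + (Real.log L / Real.log 2) * y ^ (1 - ε) := by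
  classical
  have hy0 : 0 < y := by linarith
  set P : Finset ℕ := (Finset.Icc 1 ⌊y⌋₊).filter (fun p => p.Prime ∧ p ∣ 2 ^ L - 1) with hP
  set S : Finset ℕ := (Finset.Icc 1 ⌊y⌋₊).filter
    (fun p => p.Prime ∧ ∀ q : ℕ, q.Prime → q ∣ orderOf (2 : ZMod p) → (q : ℝ) ≤ y ^ ε) with hS
  have ePr : Pr y L = P.card := by
    unfold Pr
    rw [← Set.ncard_coe_finset]
    congr 1
    ext p
    simp only [Set.mem_ofPred_eq, hP, Finset.coe_filter, Finset.mem_Icc]
    constructor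
    · rintro ⟨h1, h2, h3⟩
      exact ⟨⟨h2.one_lt.le, Nat.le_floor h1⟩, h2, h3⟩
    · rintro ⟨⟨h1, h2⟩, h3, h4⟩
      exact ⟨(Nat.le_floor_iff hy0.le).1 h2, h3, h4⟩
  have eSm : Sm y ε = S.card := by
    unfold Sm
    rw [← Set.ncard_coe_finset]
    congr 1
    ext p
    simp only [Set.mem_ofPred_eq, hS, Finset.coe_filter, Finset.mem_Icc]
    constructor
    · rintro ⟨h1, h2, h3⟩
      exact ⟨⟨h2.one_lt.le, Nat.le_floor h1⟩, h2, h3⟩
    · rintro ⟨⟨h1, h2⟩, h3, h4⟩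
      exact ⟨(Nat.le_floor_iff hy0.le).1 h2, h3, h4⟩
  set Q : Finset ℕ := L.primeFactors.filter (fun q => y ^ ε < (q : ℝ)) with hQ
  set B : Finset ℕ := Q.biUnion (fun q => (Finset.Icc 1 ⌊y⌋₊).filter (fun p => p.Prime ∧ q ∣ p - 1)) with hB
  have hsub : P ⊆ S ∪ B := by
    intro p hp
    rw [hP, Finset.mem_filter] at hp
    obtain ⟨hp1, hpp, hpd⟩ := hp
    rw [Finset.mem_union]
    by_cases hs : ∀ q : ℕ, q.Prime → q ∣ orderOf (2 : ZMod p) → (q : ℝ) ≤ y ^ ε
    · left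
      exact Finset.mem_filter.2 ⟨hp1, hpp, hs⟩
    · right
      push Not at hs
      obtain ⟨q, hq, hqo, hqy⟩ := hs
      have h2L : (2 : ZMod p) ^ L = 1 := by
        have h3 : ((2 ^ L - 1 : ℕ) : ZMod p) = 0 := (ZMod.natCast_eq_zero_iff _ _).2 hpd
        rw [Nat.cast_sub Nat.one_le_two_pow] at h3
        push_cast at h3
        exact sub_eq_zero.1 h3
      have hoL : orderOf (2 : ZMod p) ∣ L := orderOf_dvd_of_pow_eq_one h2L
      have hop : orderOf (2 : ZMod p) ∣ p - 1 := by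
        apply orderOf_dvd_of_pow_eq_one
        have : Fact p.Prime := ⟨hpp⟩
        apply ZMod.pow_card_sub_one_eq_one
        intro h0
        rw [h0, zero_pow (by omega)] at h2L
        exact zero_ne_one h2L
      rw [hB, Finset.mem_biUnion]
      refine ⟨q, Finset.mem_filter.2 ⟨?_, hqy⟩, Finset.mem_filter.2 ⟨hp1, hpp, hqo.trans hop⟩⟩
      rw [Nat.mem_primeFactors]
      exact ⟨hq, hqo.trans hoL, by omega⟩
  have hfib : ∀ q ∈ Q, (((Finset.Icc 1 ⌊y⌋₊).filter (fun p => p.Prime ∧ q ∣ p - 1)).card : ℝ) ≤ y ^ (1 - ε) := by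
    intro q hq
    rw [hQ, Finset.mem_filter, Nat.mem_primeFactors] at hq
    obtain ⟨⟨hqp, -, -⟩, hqy⟩ := hq
    have hq0 : (0 : ℝ) < q := by exact_mod_cast hqp.pos
    have h1 : ((Finset.Icc 1 ⌊y⌋₊).filter (fun p => p.Prime ∧ q ∣ p - 1)).card ≤ (Finset.Icc 1 ⌊y / q⌋₊).card := by
      apply Finset.card_le_card_of_injOn (fun p => (p - 1) / q)
      · intro p hp
        have hp' := Finset.mem_filter.1 hp
        obtain ⟨c, hc⟩ := hp'.2.2
        have hp1 := hp'.2.1.one_lt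
        have e : (p - 1) / q = c := by
          rw [hc, Nat.mul_div_cancel_left _ hqp.pos]
        simp only [e, Finset.coe_Icc, Set.mem_Icc]
        constructor
        · rcases Nat.eq_zero_or_pos c with h | h
          · rw [h, mul_zero] at hc; omega
          · exact h
        · apply Nat.le_floor
          rw [le_div_iff₀ hq0]
          have h2 : (p : ℝ) ≤ y := (Nat.le_floor_iff hy0.le).1 (Finset.mem_Icc.1 hp'.1).2
          have h3 : (c : ℝ) * q ≤ p := by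
            have : c * q ≤ p := by rw [mul_comm, ← hc]; omega
            exact_mod_cast this
          linarith
      · intro p hp p' hp' he
        have h1 := Finset.mem_filter.1 hp
        have h2 := Finset.mem_filter.1 hp'
        obtain ⟨c, hc⟩ := h1.2.2
        obtain ⟨c', hc'⟩ := h2.2.2
        simp only at he
        rw [hc, hc', Nat.mul_div_cancel_left _ hqp.pos, Nat.mul_div_cancel_left _ hqp.pos] at he
        have a := h1.2.1.one_lt
        have b := h2.2.1.one_lt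
        rw [he] at hc
        omega
    rw [Nat.card_Icc, Nat.add_sub_cancel] at h1
    calc (((Finset.Icc 1 ⌊y⌋₊).filter (fun p => p.Prime ∧ q ∣ p - 1)).card : ℝ) ≤ (⌊y / q⌋₊ : ℝ) := by exact_mod_cast h1
      _ ≤ y / q := Nat.floor_le (by positivity)
      _ ≤ y / y ^ ε := by
          apply div_le_div_of_nonneg_left hy0.le (Real.rpow_pos_of_pos hy0 _) hqy.le
      _ = y ^ (1 - ε) := by
          rw [Real.rpow_sub hy0, Real.rpow_one]
  have hQc : (Q.card : ℝ) ≤ Real.log L / Real.log 2 := by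
    have h1 : 2 ^ L.primeFactors.card ≤ L := by
      have h2 : 2 ^ L.primeFactors.card ≤ ∏ p ∈ L.primeFactors, p := by
        rw [← Finset.prod_const]
        apply Finset.prod_le_prod'
        intro p hp
        exact (Nat.prime_of_mem_primeFactors hp).two_le
      exact h2.trans (Nat.le_of_dvd (by omega) (Nat.prod_primeFactors_dvd L))
    have h2 : Q.card ≤ L.primeFactors.card := Finset.card_filter_le _ _
    rw [le_div_iff₀ (Real.log_pos (by norm_num)), ← Real.log_rpow (by norm_num), Real.rpow_natCast]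
    apply Real.log_le_log (by positivity)
    calc (2 : ℝ) ^ Q.card ≤ 2 ^ L.primeFactors.card := pow_le_pow_right₀ (by norm_num) h2
      _ ≤ L := by exact_mod_cast h1
  have hBc : (B.card : ℝ) ≤ (Real.log L / Real.log 2) * y ^ (1 - ε) := by
    have h1 : (B.card : ℝ) ≤ ∑ q ∈ Q, (((Finset.Icc 1 ⌊y⌋₊).filter (fun p => p.Prime ∧ q ∣ p - 1)).card : ℝ) := by
      exact_mod_cast Finset.card_biUnion_le
    calc (B.card : ℝ) ≤ ∑ q ∈ Q, (((Finset.Icc 1 ⌊y⌋₊).filter (fun p => p.Prime ∧ q ∣ p - 1)).card : ℝ) := h1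
      _ ≤ ∑ q ∈ Q, y ^ (1 - ε) := Finset.sum_le_sum hfib
      _ = (Q.card : ℝ) * y ^ (1 - ε) := by rw [Finset.sum_const, nsmul_eq_mul]
      _ ≤ _ := mul_le_mul_of_nonneg_right hQc (Real.rpow_nonneg hy0.le _)
  rw [ePr, eSm]
  have h3 : (P.card : ℝ) ≤ (S.card : ℝ) + B.card := by
    exact_mod_cast (Finset.card_le_card hsub).trans (Finset.card_union_le _ _)
  linarith

theorem smooth_orders (h : Q1) : ∀ ε A : ℝ, 0 < ε → 0 < A → ∀ᶠ x : ℝ in atTop,
    ∃ y : ℝ, Real.log x ^ A ≤ y ∧ y ≤ x ∧ y ^ (1 - ε) ≤ (Sm y ε : ℝ) := by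
  intro ε A hε hA
  obtain ⟨A', hA'1, hA'2⟩ : ∃ A' : ℝ, A ≤ A' ∧ 4 / ε ≤ A' := ⟨max A (4 / ε), le_max_left _ _, le_max_right _ _⟩
  have hA'0 : 0 < A' := by linarith
  obtain ⟨ε', hε'0, hε'1, hε'2⟩ : ∃ ε' : ℝ, 0 < ε' ∧ ε' ≤ ε / 4 ∧ ε' ≤ 1 / 2 :=
    ⟨min (ε / 4) (1 / 2), by positivity, min_le_left _ _, min_le_right _ _⟩
  have hlog1 : ∀ᶠ x : ℝ in atTop, 1 ≤ Real.log x :=
    Real.tendsto_log_atTop.eventually (eventually_ge_atTop 1)
  have hlog2 : ∀ᶠ x : ℝ in atTop, 4 ≤ Real.log x ^ (A' * (ε / 2)) := by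
    have h1 : Tendsto (fun x : ℝ => Real.log x ^ (A' * (ε / 2))) atTop atTop :=
      (tendsto_rpow_atTop (by positivity)).comp Real.tendsto_log_atTop
    exact h1.eventually_ge_atTop 4
  filter_upwards [eventually_ge_atTop (1 : ℝ), hlog1, hlog2, primes_uniform h ε' A' hε'0 hA'0] with
    x hx1 hx2 hx3 ⟨L, hL1, hLx, y, hy1, hy2, hy3⟩
  have hx0 : 0 < x := by linarith
  have hL0 : (0 : ℝ) < L := by exact_mod_cast hL1
  have hlogA : Real.log x ^ A ≤ Real.log x ^ A' := Real.rpow_le_rpow_of_exponent_le hx2 hA'1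
  have hy0 : 1 ≤ y := (Real.one_le_rpow hx2 hA'0.le).trans hy1
  have hyp : 0 < y := by linarith
  refine ⟨y, hlogA.trans hy1, hy2, ?_⟩
  have hmain := pr_le_sm (ε := ε) hy0 hL1
  -- log L / log 2 ≤ y ^ (ε / 4)
  have hlogL : Real.log L / Real.log 2 ≤ y ^ (ε / 4) := by
    have h1 : Real.log L ≤ ε' * Real.log x := by
      have := Real.log_le_log hL0 hLx
      rwa [Real.log_rpow hx0] at this
    have h2 : (1 / 2 : ℝ) ≤ Real.log 2 := by linarith [Real.log_two_gt_d9]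
    have h3 : Real.log L / Real.log 2 ≤ Real.log x := by
      rw [div_le_iff₀ (by linarith)]
      nlinarith
    have h4 : Real.log x ≤ y ^ (ε / 4) := by
      calc Real.log x = (Real.log x) ^ (1 : ℝ) := (Real.rpow_one _).symm
        _ ≤ (Real.log x) ^ (A' * (ε / 4)) := by
            apply Real.rpow_le_rpow_of_exponent_le hx2
            have : 4 / ε * (ε / 4) = 1 := by field_simp
            calc (1 : ℝ) = 4 / ε * (ε / 4) := this.symm
              _ ≤ A' * (ε / 4) := mul_le_mul_of_nonneg_right hA'2 (by positivity)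
        _ = (Real.log x ^ A') ^ (ε / 4) := by rw [Real.rpow_mul (by linarith)]
        _ ≤ y ^ (ε / 4) := Real.rpow_le_rpow (Real.rpow_nonneg (by linarith) _) hy1 (by positivity)
    exact h3.trans h4
  have hyε : 4 ≤ y ^ (ε / 2) := by
    calc (4 : ℝ) ≤ Real.log x ^ (A' * (ε / 2)) := hx3
      _ = (Real.log x ^ A') ^ (ε / 2) := by rw [Real.rpow_mul (by linarith)]
      _ ≤ y ^ (ε / 2) := Real.rpow_le_rpow (Real.rpow_nonneg (by linarith) _) hy1 (by positivity)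
  have h5 : Real.log L / Real.log 2 * y ^ (1 - ε) ≤ y ^ (1 - 3 * ε / 4) := by
    calc Real.log L / Real.log 2 * y ^ (1 - ε) ≤ y ^ (ε / 4) * y ^ (1 - ε) :=
          mul_le_mul_of_nonneg_right hlogL (Real.rpow_nonneg hyp.le _)
      _ = y ^ (1 - 3 * ε / 4) := by rw [← Real.rpow_add hyp]; ring_nf
  have h6 : y ^ (1 - ε / 4) ≤ y ^ (1 - ε') := Real.rpow_le_rpow_of_exponent_le hy0 (by linarith)
  have h7 : y ^ (1 - ε / 4) = y ^ (1 - 3 * ε / 4) * y ^ (ε / 2) := by
    rw [← Real.rpow_add hyp]; ring_nf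
  have h8 : y ^ (1 - ε) ≤ y ^ (1 - 3 * ε / 4) := Real.rpow_le_rpow_of_exponent_le hy0 (by linarith)
  have h9 : 0 < y ^ (1 - 3 * ε / 4) := Real.rpow_pos_of_pos hyp _
  nlinarith

end PspOrd
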