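import Pool.Agent.Lib.PspOrd.S8

/-!
# Pointwise forms (no hypothesis Q1): one `x` with many pseudoprimes
-/

open Filter Topology Finset

namespace PspOrd

private lemma ncard_eq {x : ℝ} (hx : 0 ≤ x) (P : ℕ → Prop) [DecidablePred P] :
    {n : ℕ | (n : ℝ) ≤ x ∧ P n}.ncard = ((Finset.range (⌊x⌋₊ + 1)).filter P).card := by
  rw [← Set.ncard_coe_finset]
  congr 1
  ext n
  simp only [Set.mem_ofPred_eq, Finset.coe_filter, Finset.mem_range, Nat.lt_succ_iff,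
    Nat.le_floor_iff hx]

private lemma ord_facts {n : ℕ} (h : Nat.FermatPsp n 2) :
    1 ≤ orderOf (2 : ZMod n) ∧ n ∣ 2 ^ orderOf (2 : ZMod n) - 1 ∧
      n ≡ 1 [MOD orderOf (2 : ZMod n)] := by
  obtain ⟨h1, -, h2⟩ := h
  have h3 : n ∣ 2 ^ (n - 1) - 1 := h1
  have hpow : ∀ k : ℕ, n ∣ 2 ^ k - 1 ↔ (2 : ZMod n) ^ k = 1 := by
    intro k
    rw [← ZMod.natCast_eq_zero_iff, Nat.cast_sub Nat.one_le_two_pow]
    simp [sub_eq_zero]
  have h4 : (2 : ZMod n) ^ (n - 1) = 1 := (hpow _).1 h3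
  have h5 : orderOf (2 : ZMod n) ∣ n - 1 := orderOf_dvd_of_pow_eq_one h4
  refine ⟨?_, (hpow _).2 (pow_orderOf_eq_one _), ?_⟩
  · exact Nat.pos_of_dvd_of_pos h5 (by omega)
  · exact ((Nat.modEq_iff_dvd' h2.le).2 h5).symm

private lemma psi_le {x z : ℝ} (hx : 0 ≤ x) (hz : 0 ≤ z) (B : ℝ)
    (hB : ∀ L : ℕ, 1 ≤ L → (L : ℝ) ≤ z → (Dv x L : ℝ) ≤ B) (hB0 : 0 ≤ B) :
    (Psi x : ℝ) ≤ (Big x z : ℝ) + z * B := by
  classical
  have h1 : Psi x = ((Finset.range (⌊x⌋₊ + 1)).filter (fun n => Nat.FermatPsp n 2)).card :=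
    ncard_eq hx _
  have h2 : Big x z = ((Finset.range (⌊x⌋₊ + 1)).filter
      (fun n => Nat.FermatPsp n 2 ∧ z < (orderOf (2 : ZMod n) : ℝ))).card := ncard_eq hx _
  have h3 : ∀ L, Dv x L = ((Finset.range (⌊x⌋₊ + 1)).filter
      (fun n => n ∣ 2 ^ L - 1 ∧ n ≡ 1 [MOD L])).card := fun L => ncard_eq hx _
  have h4 : (Finset.range (⌊x⌋₊ + 1)).filter (fun n => Nat.FermatPsp n 2) ⊆
      (Finset.range (⌊x⌋₊ + 1)).filter
        (fun n => Nat.FermatPsp n 2 ∧ z < (orderOf (2 : ZMod n) : ℝ)) ∪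
      (Finset.Icc 1 ⌊z⌋₊).biUnion fun L => (Finset.range (⌊x⌋₊ + 1)).filter
        (fun n => n ∣ 2 ^ L - 1 ∧ n ≡ 1 [MOD L]) := by
    intro n hn
    rw [Finset.mem_filter] at hn
    obtain ⟨hn1, hn2⟩ := hn
    obtain ⟨h5, h6, h7⟩ := ord_facts hn2
    rw [Finset.mem_union]
    by_cases h8 : z < (orderOf (2 : ZMod n) : ℝ)
    · left
      rw [Finset.mem_filter]
      exact ⟨hn1, hn2, h8⟩
    · right
      rw [Finset.mem_biUnion]
      refine ⟨orderOf (2 : ZMod n), ?_, ?_⟩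
      · rw [Finset.mem_Icc]
        exact ⟨h5, Nat.le_floor (not_lt.1 h8)⟩
      · rw [Finset.mem_filter]
        exact ⟨hn1, h6, h7⟩
  have h9 : Psi x ≤ Big x z + ∑ L ∈ Finset.Icc 1 ⌊z⌋₊, Dv x L := by
    rw [h1, h2]
    refine (Finset.card_le_card h4).trans ((Finset.card_union_le _ _).trans ?_)
    refine Nat.add_le_add_left ?_ _
    refine Finset.card_biUnion_le.trans (le_of_eq ?_)
    exact Finset.sum_congr rfl fun L _ => (h3 L).symm
  have h10 : (Psi x : ℝ) ≤ (Big x z : ℝ) + ∑ L ∈ Finset.Icc 1 ⌊z⌋₊, (Dv x L : ℝ) := by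
    exact_mod_cast h9
  refine h10.trans (add_le_add le_rfl ?_)
  have h11 : ∑ L ∈ Finset.Icc 1 ⌊z⌋₊, (Dv x L : ℝ) ≤ ∑ _L ∈ Finset.Icc 1 ⌊z⌋₊, B := by
    refine Finset.sum_le_sum fun L hL => ?_
    rw [Finset.mem_Icc] at hL
    exact hB L hL.1 ((Nat.le_floor_iff hz).1 hL.2)
  refine h11.trans ?_
  rw [Finset.sum_const, Nat.card_Icc, nsmul_eq_mul]
  refine mul_le_mul_of_nonneg_right ?_ hB0
  simpa using Nat.floor_le hz

private lemma log_small (r : ℝ) (hr : 0 < r) :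
    ∀ᶠ x : ℝ in atTop, 1 + Real.log x ≤ x ^ r / 4 := by
  have h1 : ∀ᶠ x : ℝ in atTop, ‖Real.log x‖ ≤ 8⁻¹ * ‖x ^ r‖ :=
    (isLittleO_log_rpow_atTop hr).bound (by norm_num)
  have h2 : ∀ᶠ x : ℝ in atTop, (8 : ℝ) ≤ x ^ r :=
    (tendsto_rpow_atTop hr).eventually_ge_atTop 8
  filter_upwards [h1, h2, eventually_gt_atTop 1] with x h1 h2 h3
  rw [Real.norm_of_nonneg (Real.log_nonneg h3.le), Real.norm_of_nonneg (by positivity)] at h1
  linarith

/-- One `L` for one `x` with many pseudoprimes. -/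
theorem dv_point (e : ℝ) (he : 0 < e) (he1 : e ≤ 1) : ∀ᶠ x : ℝ in atTop, x ^ (1 - e / 32) ≤ (Psi x : ℝ) →
    ∃ L : ℕ, 1 ≤ L ∧ (L : ℝ) ≤ x ^ e ∧ x ^ (1 - e) ≤ (Dv x L : ℝ) := by
  have h2 := log_small (3 * e / 64) (by positivity)
  have h3 : ∀ᶠ x : ℝ in atTop, (4 : ℝ) ≤ x ^ (23 * e / 32) :=
    (tendsto_rpow_atTop (by positivity)).eventually_ge_atTop 4
  filter_upwards [h2, h3, eventually_gt_atTop 1] with x h2 h3 hx h1
  have hx0 : 0 < x := by linarith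
  set z : ℝ := x ^ (e / 4) with hz
  have hz1 : 1 ≤ z := Real.one_le_rpow hx.le (by positivity)
  have hz4 : z ^ 4 ≤ x := by
    rw [hz, ← Real.rpow_natCast, ← Real.rpow_mul hx0.le]
    calc x ^ (e / 4 * ((4 : ℕ) : ℝ)) ≤ x ^ (1 : ℝ) :=
          Real.rpow_le_rpow_of_exponent_le hx.le (by push_cast; linarith)
      _ = x := Real.rpow_one x
  have hb := big_le x z hz1 hz4
  have hsz : √z = x ^ (e / 8) := by
    rw [hz, Real.sqrt_eq_rpow, ← Real.rpow_mul hx0.le]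
    congr 1
    ring
  have hlog : 0 ≤ 1 + Real.log x := by linarith [Real.log_nonneg hx.le]
  have hb2 : (Big x z : ℝ) ≤ x ^ (1 - e / 32) / 2 := by
    refine hb.trans ?_
    rw [hsz, div_le_iff₀ (by positivity)]
    have h5 : (1 + Real.log x) ^ 2 ≤ x ^ (3 * e / 32) / 16 := by
      have h6 : (1 + Real.log x) ^ 2 ≤ (x ^ (3 * e / 64) / 4) ^ 2 :=
        pow_le_pow_left₀ hlog h2 2
      have h7 : (x ^ (3 * e / 64) / 4) ^ 2 = x ^ (3 * e / 32) / 16 := by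
        rw [div_pow, ← Real.rpow_natCast, ← Real.rpow_mul hx0.le]
        congr 1
        · congr 1
          push_cast
          ring
        · norm_num
      linarith
    have h8 : x ^ (1 - e / 32) / 2 * x ^ (e / 8) = x * x ^ (3 * e / 32) / 2 := by
      have h9 : x ^ (1 - e / 32) * x ^ (e / 8) = x * x ^ (3 * e / 32) := by
        rw [← Real.rpow_add hx0]
        nth_rewrite 2 [← Real.rpow_one x]
        rw [← Real.rpow_add hx0]
        congr 1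
        ring
      linarith
    rw [h8]
    have h10 : 5 * x * (1 + Real.log x) ^ 2 ≤ 5 * x * (x ^ (3 * e / 32) / 16) :=
      mul_le_mul_of_nonneg_left h5 (by positivity)
    have h11 : 0 ≤ x * x ^ (3 * e / 32) := by positivity
    linarith
  by_contra hcon
  push Not at hcon
  have hB : ∀ L : ℕ, 1 ≤ L → (L : ℝ) ≤ z → (Dv x L : ℝ) ≤ x ^ (1 - e) := by
    intro L hL1 hL2
    refine (hcon L hL1 (hL2.trans ?_)).le
    exact Real.rpow_le_rpow_of_exponent_le hx.le (by linarith)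
  have h12 := psi_le hx0.le (by linarith : (0 : ℝ) ≤ z) _ hB (by positivity)
  have h13 : z * x ^ (1 - e) ≤ x ^ (1 - e / 32) / 4 := by
    have h14 : x ^ (23 * e / 32) * (z * x ^ (1 - e)) = x ^ (1 - e / 32) := by
      rw [hz, ← Real.rpow_add hx0, ← Real.rpow_add hx0]
      congr 1
      ring
    have h15 : 4 * (z * x ^ (1 - e)) ≤ x ^ (23 * e / 32) * (z * x ^ (1 - e)) :=
      mul_le_mul_of_nonneg_right h3 (by positivity)
    linarith
  have h16 : 0 < x ^ (1 - e / 32) := by positivity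
  linarith

/-- The pointwise form of the statement on primes dividing `2 ^ L - 1`. -/
theorem primes_point (ε A δ : ℝ) (hA : 0 < A) (hδ0 : 0 < δ) (hδε : δ ≤ ε / 4) (hδ4 : δ ≤ 1 / 4)
    (hδA : δ ≤ 1 / (2 * A)) : ∀ᶠ x : ℝ in atTop, x ^ (1 - δ / 64) ≤ (Psi x : ℝ) →
    ∃ L : ℕ, 1 ≤ L ∧ (L : ℝ) ≤ x ^ ε ∧ ∃ y : ℝ, Real.log x ^ A ≤ y ∧ y ≤ x ∧ y ^ (1 - ε) ≤ (Pr y L : ℝ) := by
  obtain ⟨C, hC, hsmall⟩ := small_sum (2 * δ) (by linarith) (by linarith)
  have hlog : ∀ᶠ x : ℝ in atTop,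
      C + C * (0 + Real.log x ^ (3 / 4 : ℝ)) < δ / 4 * Real.log x :=
    Real.tendsto_log_atTop.eventually (s6_big (by linarith) hC le_rfl)
  have hlog1 : ∀ᶠ x : ℝ in atTop, 1 ≤ Real.log x :=
    Real.tendsto_log_atTop.eventually (eventually_ge_atTop 1)
  have hlogA : ∀ᶠ x : ℝ in atTop, Real.log x ^ A ≤ x := by
    have h1 := (isLittleO_log_rpow_rpow_atTop A (zero_lt_one : (0 : ℝ) < 1)).bound zero_lt_one
    filter_upwards [h1, eventually_ge_atTop (1 : ℝ)] with x hx hx1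
    rw [Real.rpow_one, one_mul, Real.norm_of_nonneg (Real.rpow_nonneg (Real.log_nonneg hx1) _),
      Real.norm_of_nonneg (by linarith)] at hx
    exact hx
  filter_upwards [eventually_ge_atTop (1 : ℝ), hlog, hlog1, hlogA, dv_point (δ / 2) (by linarith) (by linarith)] with
    x hx1 hx2 hx3 hx4 hdv hPsi
  have hPsi' : x ^ (1 - δ / 2 / 32) ≤ (Psi x : ℝ) := by
    have e1 : δ / 2 / 32 = δ / 64 := by ring
    rw [e1]; exact hPsi
  obtain ⟨L, hL1, hLx, hD⟩ := hdv hPsi'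
  have hx0 : 0 < x := by linarith
  have hM0 : 0 < 2 ^ L - 1 := by
    have : 2 ^ 1 ≤ 2 ^ L := Nat.pow_le_pow_right (by norm_num) hL1
    omega
  have hM : Odd (2 ^ L - 1) := by
    have h2 : Even (2 ^ L) := by
      rw [Nat.even_pow]; exact ⟨even_two, by omega⟩
    have h3 : 1 ≤ 2 ^ L := Nat.one_le_two_pow
    obtain ⟨k, hk⟩ := h2
    exact ⟨k - 1, by omega⟩
  refine ⟨L, hL1, hLx.trans (Real.rpow_le_rpow_of_exponent_le hx1 (by linarith)), ?_⟩
  by_contra hcon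
  push Not at hcon
  have hcard : x ^ (1 - δ / 2) ≤
      ((({n ∈ Finset.Icc 1 ⌊x⌋₊ | n ∣ (2 ^ L - 1)} : Finset ℕ)).card : ℝ) := by
    refine hD.trans ?_
    have hsub : {n : ℕ | (n : ℝ) ≤ x ∧ n ∣ 2 ^ L - 1 ∧ n ≡ 1 [MOD L]} ⊆
        (({n ∈ Finset.Icc 1 ⌊x⌋₊ | n ∣ (2 ^ L - 1)} : Finset ℕ) : Set ℕ) := by
      rintro n ⟨hn1, hn2, -⟩
      rw [Finset.mem_coe, Finset.mem_filter, Finset.mem_Icc]
      refine ⟨⟨?_, (Nat.le_floor_iff hx0.le).2 hn1⟩, hn2⟩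
      exact Nat.pos_of_ne_zero fun h => by
        rw [h, zero_dvd_iff] at hn2
        omega
    have h2 := Set.ncard_le_ncard hsub (Finset.finite_toSet _)
    rw [Set.ncard_coe_finset] at h2
    unfold Dv
    exact_mod_cast h2
  have h4 := rankin (M := 2 ^ L - 1) hM (x := x) (δ := δ / 2) (σ := 1 - 2 * δ / 2) hx1
    (by linarith) hcard
  set T : Finset ℕ := (Finset.Icc 1 ⌊x⌋₊).filter (fun p => p.Prime ∧ p ∣ 2 ^ L - 1) with hT
  have hZ1 : 1 ≤ Real.log x ^ A := Real.one_le_rpow hx3 hA.le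
  have hcnt : ∀ y : ℝ, 1 ≤ y → ((T.filter (fun t : ℕ => (t : ℝ) ≤ y)).card : ℝ) ≤ (Pr y L : ℝ) := by
    intro y hy
    unfold Pr
    have hfin : {p : ℕ | (p : ℝ) ≤ y ∧ p.Prime ∧ p ∣ 2 ^ L - 1}.Finite := by
      refine (Set.finite_Iic ⌊y⌋₊).subset fun p hp => ?_
      exact (Nat.le_floor_iff (by linarith)).2 hp.1
    have h10 : ((T.filter (fun t : ℕ => (t : ℝ) ≤ y) : Finset ℕ) : Set ℕ) ⊆
        {p : ℕ | (p : ℝ) ≤ y ∧ p.Prime ∧ p ∣ 2 ^ L - 1} := by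
      intro p hp
      rw [Finset.mem_coe, Finset.mem_filter, hT, Finset.mem_filter] at hp
      exact ⟨hp.2, hp.1.2.1, hp.1.2.2⟩
    have h11 := Set.ncard_le_ncard h10 hfin
    rw [Set.ncard_coe_finset] at h11
    exact_mod_cast h11
  have h5 := hsmall T (Real.log x ^ A) hZ1 (by
    intro t ht
    rw [hT, Finset.mem_filter, Finset.mem_Icc] at ht
    exact ht.1.1) (by
    intro y hy
    have hy1 : 1 ≤ y := hZ1.trans hy
    rcases le_or_gt y x with hyx | hyx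
    · have h9 := hcon y hy hyx
      have h10 := hcnt y hy1
      have h11 : y ^ (1 - ε) ≤ y ^ (1 - 2 * δ) := Real.rpow_le_rpow_of_exponent_le hy1 (by linarith)
      linarith
    · have h9 := hcon x hx4 le_rfl
      have h10 := hcnt x hx1
      have h11 : x ^ (1 - ε) ≤ x ^ (1 - 2 * δ) := Real.rpow_le_rpow_of_exponent_le hx1 (by linarith)
      have h12 : x ^ (1 - 2 * δ) ≤ y ^ (1 - 2 * δ) := Real.rpow_le_rpow hx0.le hyx.le (by linarith)
      have h13 : (T.filter (fun t : ℕ => (t : ℝ) ≤ y)).card ≤ (T.filter (fun t : ℕ => (t : ℝ) ≤ x)).card := by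
        apply Finset.card_le_card
        intro t ht
        rw [Finset.mem_filter] at ht ⊢
        refine ⟨ht.1, ?_⟩
        have h14 := ht.1
        rw [hT, Finset.mem_filter, Finset.mem_Icc] at h14
        exact (Nat.le_floor_iff hx0.le).1 h14.1.2
      have h15 : ((T.filter (fun t : ℕ => (t : ℝ) ≤ y)).card : ℝ) ≤ (T.filter (fun t : ℕ => (t : ℝ) ≤ x)).card := by
        exact_mod_cast h13
      linarith)
  have h6 : (Real.log x ^ A) ^ (3 * (2 * δ) / 4) ≤ Real.log x ^ (3 / 4 : ℝ) := by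
    rw [← Real.rpow_mul (by linarith)]
    apply Real.rpow_le_rpow_of_exponent_le hx3
    have h7 : A * δ ≤ 1 / 2 := by
      calc A * δ ≤ A * (1 / (2 * A)) := mul_le_mul_of_nonneg_left hδA hA.le
        _ = 1 / 2 := by field_simp
    nlinarith
  have h7 : C * (Real.log x ^ A) ^ (3 * (2 * δ) / 4) ≤ C * Real.log x ^ (3 / 4 : ℝ) :=
    mul_le_mul_of_nonneg_left h6 hC.le
  have h15 : (1 - δ / 2 - (1 - 2 * δ / 2)) / 2 * Real.log x = δ / 4 * Real.log x := by ring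
  rw [h15] at h4
  linarith

/-- The pointwise form for smooth orders. -/
theorem smooth_point (ε : ℝ) (hε : 0 < ε) (hε1 : ε ≤ 1) : ∀ᶠ x : ℝ in atTop,
    x ^ (1 - ε / 1024) ≤ (Psi x : ℝ) →
    ∃ y : ℝ, Real.log x ^ (1 / ε) ≤ y ∧ y ≤ x ∧ y ^ (1 - ε) ≤ (Sm y ε : ℝ) := by
  obtain ⟨A, hA⟩ : ∃ A : ℝ, A = 1 / ε := ⟨_, rfl⟩
  rw [← hA]
  obtain ⟨A', hA'⟩ : ∃ A' : ℝ, A' = 4 / ε := ⟨_, rfl⟩
  have hA'1 : A ≤ A' := by
    rw [hA, hA']
    exact div_le_div_of_nonneg_right (by norm_num) hε.le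
  have hA'2 : 4 / ε ≤ A' := hA'.ge
  have hA'0 : 0 < A' := by rw [hA']; positivity
  obtain ⟨ε', hε'⟩ : ∃ ε' : ℝ, ε' = ε / 4 := ⟨_, rfl⟩
  have hε'0 : 0 < ε' := by rw [hε']; positivity
  have hε'1 : ε' ≤ ε / 4 := hε'.le
  have hε'2 : ε' ≤ 1 / 2 := by linarith
  have hδA : ε / 16 ≤ 1 / (2 * A') := by
    rw [hA']
    have e1 : 1 / (2 * (4 / ε)) = ε / 8 := by field_simp; norm_num
    rw [e1]; linarith
  have hprimes := primes_point ε' A' (ε / 16) hA'0 (by positivity) (by rw [hε']; linarith) (by linarith) hδA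
  have hlog1 : ∀ᶠ x : ℝ in atTop, 1 ≤ Real.log x :=
    Real.tendsto_log_atTop.eventually (eventually_ge_atTop 1)
  have hlog2 : ∀ᶠ x : ℝ in atTop, 4 ≤ Real.log x ^ (A' * (ε / 2)) := by
    have h1 : Tendsto (fun x : ℝ => Real.log x ^ (A' * (ε / 2))) atTop atTop :=
      (tendsto_rpow_atTop (by positivity)).comp Real.tendsto_log_atTop
    exact h1.eventually_ge_atTop 4
  filter_upwards [eventually_ge_atTop (1 : ℝ), hlog1, hlog2, hprimes] with x hx1 hx2 hx3 hx4 hPsi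
  have hPsi' : x ^ (1 - ε / 16 / 64) ≤ (Psi x : ℝ) := by
    have e1 : ε / 16 / 64 = ε / 1024 := by ring
    rw [e1]; exact hPsi
  obtain ⟨L, hL1, hLx, y, hy1, hy2, hy3⟩ := hx4 hPsi'
  have hx0 : 0 < x := by linarith
  have hL0 : (0 : ℝ) < L := by exact_mod_cast hL1
  have hlogA : Real.log x ^ A ≤ Real.log x ^ A' := Real.rpow_le_rpow_of_exponent_le hx2 hA'1
  have hy0 : 1 ≤ y := (Real.one_le_rpow hx2 hA'0.le).trans hy1
  have hyp : 0 < y := by linarith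
  refine ⟨y, hlogA.trans hy1, hy2, ?_⟩
  have hmain := pr_le_sm (ε := ε) hy0 hL1
  -- log L / log 2 ≤ y ^ (ε / 4)
  have hlogL : Real.log L / Real.log 2 ≤ y ^ (ε / 4) := by
    have h1 : Real.log L ≤ ε' * Real.log x := by
      have := Real.log_le_log hL0 hLx
      rwa [Real.log_rpow hx0] at this
    have h2 : (1 / 2 : ℝ) ≤ Real.log 2 := by linarith [Real.log_two_gt_d9]
    have h3 : Real.log L / Real.log 2 ≤ Real.log x := by
      rw [div_le_iff₀ (by linarith)]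
      nlinarith
    have h4 : Real.log x ≤ y ^ (ε / 4) := by
      calc Real.log x = (Real.log x) ^ (1 : ℝ) := (Real.rpow_one _).symm
        _ ≤ (Real.log x) ^ (A' * (ε / 4)) := by
            apply Real.rpow_le_rpow_of_exponent_le hx2
            have : 4 / ε * (ε / 4) = 1 := by field_simp
            calc (1 : ℝ) = 4 / ε * (ε / 4) := this.symm
              _ ≤ A' * (ε / 4) := mul_le_mul_of_nonneg_right hA'2 (by positivity)
        _ = (Real.log x ^ A') ^ (ε / 4) := by rw [Real.rpow_mul (by linarith)]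
        _ ≤ y ^ (ε / 4) := Real.rpow_le_rpow (Real.rpow_nonneg (by linarith) _) hy1 (by positivity)
    exact h3.trans h4
  have hyε : 4 ≤ y ^ (ε / 2) := by
    calc (4 : ℝ) ≤ Real.log x ^ (A' * (ε / 2)) := hx3
      _ = (Real.log x ^ A') ^ (ε / 2) := by rw [Real.rpow_mul (by linarith)]
      _ ≤ y ^ (ε / 2) := Real.rpow_le_rpow (Real.rpow_nonneg (by linarith) _) hy1 (by positivity)
  have h5 : Real.log L / Real.log 2 * y ^ (1 - ε) ≤ y ^ (1 - 3 * ε / 4) := by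
    calc Real.log L / Real.log 2 * y ^ (1 - ε) ≤ y ^ (ε / 4) * y ^ (1 - ε) :=
          mul_le_mul_of_nonneg_right hlogL (Real.rpow_nonneg hyp.le _)
      _ = y ^ (1 - 3 * ε / 4) := by rw [← Real.rpow_add hyp]; ring_nf
  have h6 : y ^ (1 - ε / 4) ≤ y ^ (1 - ε') := Real.rpow_le_rpow_of_exponent_le hy0 (by linarith)
  have h7 : y ^ (1 - ε / 4) = y ^ (1 - 3 * ε / 4) * y ^ (ε / 2) := by
    rw [← Real.rpow_add hyp]; ring_nf
  have h8 : y ^ (1 - ε) ≤ y ^ (1 - 3 * ε / 4) := Real.rpow_le_rpow_of_exponent_le hy0 (by linarith)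
  have h9 : 0 < y ^ (1 - 3 * ε / 4) := Real.rpow_pos_of_pos hyp _
  nlinarith

end PspOrd
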